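import Mathlib

set_option autoImplicit false

namespace Pool.Agent.PS

/-- Exponent vectors of monomials in `x, y, u, v, w`. -/
structure Mo where
  a : ℕ
  b : ℕ
  c : ℕ
  d : ℕ
  e : ℕ

abbrev Po := List Mo
abbrev Ma := List (List Po)

def Mo.mul (m n : Mo) : Mo := ⟨m.a + n.a, m.b + n.b, m.c + n.c, m.d + n.d, m.e + n.e⟩
def Mo.same (m n : Mo) : Bool :=
  Nat.beq m.a n.a && Nat.beq m.b n.b && Nat.beq m.c n.c && Nat.beq m.d n.d && Nat.beq m.e n.e
def Mo.nf (m : Mo) : Mo :=
  ⟨m.a - min m.a m.b, m.b - min m.a m.b, m.c + min m.a m.b, m.d + min m.a m.b, m.e⟩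

def tog (m : Mo) : Po → Po
  | [] => [m]
  | n :: l => if m.same n then l else n :: tog m l

def red (kill : Mo → Bool) : Po → Po
  | [] => []
  | m :: l => if kill m.nf then red kill l else tog m.nf (red kill l)

def isZ (kill : Mo → Bool) (p : Po) : Bool := (red kill p).isEmpty

def pmul (p q : Po) : Po := p.flatMap fun m => q.map fun n => m.mul n

def ent (L : Ma) (i j : ℕ) : Po := (L.getD i []).getD j []

def mulE (k : ℕ) (A B : Ma) (i j : ℕ) : Po :=
  (List.range k).flatMap fun t => pmul (ent A i t) (ent B t j)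

def dia (a : Po) (i j : ℕ) : Po := if i = j then a else []

def chk (kill : Mo → Bool) (n m : ℕ) (f : ℕ → ℕ → Po) : Bool :=
  (List.range n).all fun i => (List.range m).all fun j => isZ kill (f i j)

structure Vars (T : Type) where
  x : T
  y : T
  u : T
  v : T
  w : T

variable {T S : Type} [CommRing T] [CommRing S]

def Vars.map (g : Vars T) (f : T →+* S) : Vars S := ⟨f g.x, f g.y, f g.u, f g.v, f g.w⟩

def evM (g : Vars T) (m : Mo) : T := g.x ^ m.a * g.y ^ m.b * g.u ^ m.c * g.v ^ m.d * g.w ^ m.e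

def ev (g : Vars T) (p : Po) : T := (p.map (evM g)).sum

def mat (g : Vars T) (n m : ℕ) (L : Ma) : Matrix (Fin n) (Fin m) T :=
  Matrix.of fun i j => ev g (ent L i j)

lemma ev_nil (g : Vars T) : ev g [] = 0 := rfl
lemma ev_cons (g : Vars T) (m : Mo) (p : Po) : ev g (m :: p) = evM g m + ev g p := by
  simp [ev]
lemma ev_append (g : Vars T) (p q : Po) : ev g (p ++ q) = ev g p + ev g q := by
  simp [ev]

lemma evM_mul (g : Vars T) (m n : Mo) : evM g (m.mul n) = evM g m * evM g n := by
  simp only [evM, Mo.mul, pow_add]; ring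

lemma ev_map_mul (g : Vars T) (m : Mo) (q : Po) :
    ev g (q.map fun n => m.mul n) = evM g m * ev g q := by
  induction q with
  | nil => simp [ev_nil]
  | cons n q ih => rw [List.map_cons, ev_cons, ev_cons, ih, evM_mul, mul_add]

lemma ev_pmul (g : Vars T) (p q : Po) : ev g (pmul p q) = ev g p * ev g q := by
  induction p with
  | nil => simp [pmul, ev_nil]
  | cons m p ih =>
    have : pmul (m :: p) q = (q.map fun n => m.mul n) ++ pmul p q := by simp [pmul]
    rw [this, ev_append, ih, ev_map_mul, ev_cons, add_mul]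

lemma ev_flatMap_range (g : Vars T) (k : ℕ) (f : ℕ → Po) :
    ev g ((List.range k).flatMap f) = ∑ t : Fin k, ev g (f t) := by
  induction k with
  | zero => simp [ev_nil]
  | succ k ih =>
    rw [List.range_succ, List.flatMap_append, ev_append, ih, Fin.sum_univ_castSucc]
    simp

lemma ev_mulE (g : Vars T) (n k m : ℕ) (A B : Ma) (i : Fin n) (j : Fin m) :
    ev g (mulE k A B i j) = (mat g n k A * mat g k m B) i j := by
  rw [mulE, ev_flatMap_range, Matrix.mul_apply]
  simp only [ev_pmul, mat, Matrix.of_apply]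

lemma ev_dia (g : Vars T) (n : ℕ) (a : Po) (i j : Fin n) :
    ev g (dia a i j) = (ev g a • (1 : Matrix (Fin n) (Fin n) T)) i j := by
  by_cases h : i = j
  · subst h; simp [dia]
  · have : (i : ℕ) ≠ j := fun e => h (Fin.ext e)
    simp [dia, this, h, ev_nil]

lemma same_eq {m n : Mo} (h : m.same n = true) : m = n := by
  cases m; cases n
  simp only [Mo.same, Bool.and_eq_true, Nat.beq_eq] at h
  obtain ⟨⟨⟨⟨h1, h2⟩, h3⟩, h4⟩, h5⟩ := h
  subst h1 h2 h3 h4 h5; rfl

/-- The relations that hold in every ring we evaluate in. -/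
structure Rel (g : Vars T) : Prop where
  two : (2 : T) = 0
  xy : g.x * g.y = g.u * g.v

lemma ev_tog {g : Vars T} (h : Rel g) (m : Mo) (p : Po) : ev g (tog m p) = evM g m + ev g p := by
  induction p with
  | nil => simp [tog, ev_cons, ev_nil]
  | cons n l ih =>
    rw [tog]
    split_ifs with hs
    · rw [same_eq hs, ev_cons]; linear_combination (-evM g n) * h.two
    · rw [ev_cons, ih, ev_cons]; ring

lemma evM_nf {g : Vars T} (h : Rel g) (m : Mo) : evM g m.nf = evM g m := by
  obtain ⟨a, b, c, d, e⟩ := m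
  simp only [evM, Mo.nf]
  obtain ⟨a', ha⟩ : ∃ a', a = a' + min a b := ⟨a - min a b, by omega⟩
  obtain ⟨b', hb⟩ : ∃ b', b = b' + min a b := ⟨b - min a b, by omega⟩
  generalize min a b = k at ha hb
  subst ha hb
  have : g.x ^ k * g.y ^ k = g.u ^ k * g.v ^ k := by rw [← mul_pow, ← mul_pow, h.xy]
  simp only [Nat.add_sub_cancel, pow_add]
  linear_combination (-(g.x ^ a' * g.y ^ b' * g.u ^ c * g.v ^ d * g.w ^ e)) * this

lemma ev_red {g : Vars T} (h : Rel g) {kill : Mo → Bool}
    (hk : ∀ m, kill m = true → evM g m = 0) (p : Po) : ev g (red kill p) = ev g p := by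
  induction p with
  | nil => rfl
  | cons m l ih =>
    rw [red]
    split_ifs with hs
    · rw [ih, ev_cons, ← evM_nf h, hk _ hs, zero_add]
    · rw [ev_tog h, ih, ev_cons, evM_nf h]

lemma ev_of_chk {g : Vars T} (h : Rel g) {kill : Mo → Bool}
    (hk : ∀ m, kill m = true → evM g m = 0) {n m : ℕ} {f : ℕ → ℕ → Po}
    (hc : chk kill n m f = true) (i : Fin n) (j : Fin m) : ev g (f i j) = 0 := by
  simp only [chk, List.all_eq_true, List.mem_range] at hc
  have := hc i i.2 j j.2
  rw [isZ, List.isEmpty_iff] at this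
  rw [← ev_red h hk, this, ev_nil]

lemma eq_of_add {g : Vars T} (h : Rel g) {a b : T} (e : a + b = 0) : a = b := by
  linear_combination e - b * h.two

section
variable {g : Vars T} (h : Rel g) {kill : Mo → Bool} (hk : ∀ m, kill m = true → evM g m = 0)
include h hk

lemma L1 {n k m : ℕ} {A B : Ma} (hc : chk kill n m (mulE k A B) = true) :
    mat g n k A * mat g k m B = 0 := by
  ext i j
  rw [← ev_mulE, ev_of_chk h hk hc]; rfl

lemma L2 {n k : ℕ} {A B : Ma} {a : Po}
    (hc : chk kill n n (fun i j => mulE k A B i j ++ dia a i j) = true) :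
    mat g n k A * mat g k n B = ev g a • 1 := by
  ext i j
  have := ev_of_chk h hk hc i j
  rw [ev_append, ev_mulE, ev_dia] at this
  exact eq_of_add h this

lemma L3 {n k l : ℕ} {A B C D : Ma} {a : Po}
    (hc : chk kill n n (fun i j => (mulE k A B i j ++ mulE l C D i j) ++ dia a i j) = true) :
    mat g n k A * mat g k n B + mat g n l C * mat g l n D = ev g a • 1 := by
  ext i j
  have := ev_of_chk h hk hc i j
  rw [ev_append, ev_append, ev_mulE, ev_mulE, ev_dia] at this
  exact eq_of_add h this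

lemma L4 {n k l r : ℕ} {A B C D E F : Ma} {a : Po}
    (hc : chk kill n n
      (fun i j => ((mulE k A B i j ++ mulE l C D i j) ++ mulE r E F i j) ++ dia a i j) = true) :
    mat g n k A * mat g k n B + mat g n l C * mat g l n D + mat g n r E * mat g r n F
      = ev g a • 1 := by
  ext i j
  have := ev_of_chk h hk hc i j
  rw [ev_append, ev_append, ev_append, ev_mulE, ev_mulE, ev_mulE, ev_dia] at this
  exact eq_of_add h this

lemma L5 {n m k l : ℕ} {A B C D : Ma}
    (hc : chk kill n m (fun i j => mulE k A B i j ++ mulE l C D i j) = true) :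
    mat g n k A * mat g k m B = mat g n l C * mat g l m D := by
  ext i j
  have := ev_of_chk h hk hc i j
  rw [ev_append, ev_mulE, ev_mulE] at this
  exact eq_of_add h this
end

lemma evM_map (g : Vars T) (f : T →+* S) (m : Mo) : evM (g.map f) m = f (evM g m) := by
  simp [evM, Vars.map]

lemma ev_map (g : Vars T) (f : T →+* S) (p : Po) : ev (g.map f) p = f (ev g p) := by
  induction p with
  | nil => simp [ev_nil]
  | cons m l ih => rw [ev_cons, ev_cons, ih, evM_map, map_add]

lemma mat_map (g : Vars T) (f : T →+* S) (n m : ℕ) (L : Ma) :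
    mat (g.map f) n m L = (mat g n m L).map f := by
  ext i j; simp [mat, ev_map]

lemma Rel.map {g : Vars T} (h : Rel g) (f : T →+* S) : Rel (g.map f) where
  two := by rw [← map_ofNat f 2, h.two, map_zero]
  xy := by simp only [Vars.map, ← map_mul, h.xy]

def kR (m : Mo) : Bool := decide (0 < m.e) && (decide (0 < m.a) || decide (0 < m.d))
def kW (m : Mo) : Bool := decide (0 < m.e)
def kJ (m : Mo) : Bool := decide (0 < m.a) || decide (0 < m.d)

lemma kW_ok {g : Vars T} (hw : g.w = 0) (m : Mo) (h : kW m = true) : evM g m = 0 := by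
  simp only [kW, decide_eq_true_eq] at h
  simp [evM, hw, zero_pow h.ne']

lemma kJ_ok {g : Vars T} (hx : g.x = 0) (hv : g.v = 0) (m : Mo) (h : kJ m = true) :
    evM g m = 0 := by
  simp only [kJ, decide_eq_true_eq, Bool.or_eq_true] at h
  rcases h with h | h
  · simp [evM, hx, zero_pow h.ne']
  · simp [evM, hv, zero_pow h.ne']

lemma kR_ok {g : Vars T} (hx : g.w * g.x = 0) (hv : g.w * g.v = 0) (m : Mo) (h : kR m = true) :
    evM g m = 0 := by
  simp only [kR, decide_eq_true_eq, Bool.or_eq_true, Bool.and_eq_true] at h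
  obtain ⟨a, b, c, d, e⟩ := m
  obtain ⟨he, h⟩ := h
  obtain ⟨e, rfl⟩ : ∃ e', e = e' + 1 := ⟨e - 1, by simp only at he; omega⟩
  rcases h with h | h
  · obtain ⟨a, rfl⟩ : ∃ a', a = a' + 1 := ⟨a - 1, by simp only at h; omega⟩
    simp only [evM, pow_succ]
    linear_combination (g.x ^ a * g.y ^ b * g.u ^ c * g.v ^ d * g.w ^ e) * hx
  · obtain ⟨d, rfl⟩ : ∃ d', d = d' + 1 := ⟨d - 1, by simp only at h; omega⟩
    simp only [evM, pow_succ]
    linear_combination (g.x ^ a * g.y ^ b * g.u ^ c * g.v ^ d * g.w ^ e) * hv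

end Pool.Agent.PS
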