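import Pool.Agent.H.MP_b9e986_al.D

set_option autoImplicit false

namespace Pool.Agent.PS

open Matrix

variable {T S : Type} [CommRing T] [CommRing S]

/-- `a, b, c` is a weakly regular sequence, in elementary form. -/
structure Reg3 (a b c : T) : Prop where
  r1 : ∀ r, a * r = 0 → r = 0
  r2 : ∀ r s, b * r = a * s → ∃ t, r = a * t
  r3 : ∀ r s t, c * r = a * s + b * t → ∃ p q, r = a * p + b * q

section acyc
variable {a b c : T} (H : Reg3 a b c) {n1 n2 n3 : ℕ}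
include H

lemma Reg3.v1 {n : ℕ} (z : Fin n → T) (h : a • z = 0) : z = 0 := by
  funext i; exact H.r1 _ (congrFun h i)

lemma Reg3.v2 {n : ℕ} (z s : Fin n → T) (h : b • z = a • s) : ∃ t : Fin n → T, z = a • t := by
  choose t ht using fun i => H.r2 (z i) (s i) (congrFun h i)
  exact ⟨t, funext ht⟩

lemma Reg3.v3 {n : ℕ} (z s t : Fin n → T) (h : c • z = a • s + b • t) :
    ∃ p q : Fin n → T, z = a • p + b • q := by
  choose p q hpq using fun i => H.r3 (z i) (s i) (t i) (congrFun h i)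
  exact ⟨p, q, funext hpq⟩

lemma Reg3.ex2 (f2 : (Fin n2 → T) →ₗ[T] (Fin n1 → T)) (f3 : (Fin n3 → T) →ₗ[T] (Fin n2 → T))
    (inj : ∀ z, f3 z = 0 → z = 0)
    (ha : ∀ z, f2 z = 0 → ∃ t, f3 t = a • z) (hb : ∀ z, f2 z = 0 → ∃ t, f3 t = b • z)
    (z : Fin n2 → T) (hz : f2 z = 0) : ∃ t, f3 t = z := by
  obtain ⟨α, hα⟩ := ha z hz
  obtain ⟨β, hβ⟩ := hb z hz
  have h1 : b • α - a • β = 0 := by
    apply inj
    rw [map_sub, map_smul, map_smul, hα, hβ, smul_comm, sub_self]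
  obtain ⟨γ, hγ⟩ := H.v2 α β (sub_eq_zero.1 h1)
  refine ⟨γ, ?_⟩
  have : a • (f3 γ - z) = 0 := by rw [smul_sub, ← map_smul, ← hγ, hα, sub_self]
  exact sub_eq_zero.1 (H.v1 _ this)

lemma Reg3.ex1 (f2 : (Fin n2 → T) →ₗ[T] (Fin n1 → T)) (f3 : (Fin n3 → T) →ₗ[T] (Fin n2 → T))
    (inj : ∀ z, f3 z = 0 → z = 0) (ex : ∀ z, f2 z = 0 → ∃ t, f3 t = z)
    (dd : ∀ z, f2 (f3 z) = 0)
    (z : Fin n1 → T) (ha : ∃ t, f2 t = a • z) (hb : ∃ t, f2 t = b • z)
    (hc : ∃ t, f2 t = c • z) : ∃ t, f2 t = z := by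
  obtain ⟨x, hx⟩ := ha
  obtain ⟨y, hy⟩ := hb
  obtain ⟨t, ht⟩ := hc
  obtain ⟨γ, hγ⟩ := ex (b • x - a • y)
    (by rw [map_sub, map_smul, map_smul, hx, hy, smul_comm, sub_self])
  obtain ⟨β, hβ⟩ := ex (c • x - a • t)
    (by rw [map_sub, map_smul, map_smul, hx, ht, smul_comm, sub_self])
  obtain ⟨α, hα⟩ := ex (c • y - b • t)
    (by rw [map_sub, map_smul, map_smul, hy, ht, smul_comm, sub_self])
  have h1 : c • γ - (a • (-α) + b • β) = 0 := by
    apply inj
    simp only [map_sub, map_add, map_smul, map_neg, hα, hβ, hγ]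
    module
  obtain ⟨p, q, hpq⟩ := H.v3 γ (-α) β (sub_eq_zero.1 h1)
  have h2 : b • (x - f3 q) = a • (y + f3 p) := by
    have := hγ
    rw [hpq, map_add, map_smul, map_smul] at this
    linear_combination (norm := module) -this
  obtain ⟨x', hx'⟩ := H.v2 _ _ h2
  refine ⟨x', ?_⟩
  have : a • (f2 x' - z) = 0 := by
    rw [smul_sub, ← map_smul, ← hx', map_sub, dd, hx]; simp
  exact sub_eq_zero.1 (H.v1 _ this)
end acyc

/-- Exactness of `B` followed by `A` modulo the ideal `I`. -/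
def ExM {n0 n1 n2 : ℕ} (I : Ideal T) (A : Matrix (Fin n0) (Fin n1) T)
    (B : Matrix (Fin n1) (Fin n2) T) : Prop :=
  ∀ z : Fin n1 → T, (∀ i, (A *ᵥ z) i ∈ I) → ∃ c : Fin n2 → T, ∀ i, (z - B *ᵥ c) i ∈ I

section exm
variable {n0 n1 n2 : ℕ} {A : Matrix (Fin n0) (Fin n1) T} {B : Matrix (Fin n1) (Fin n2) T}

lemma map_mulVec' {n m : ℕ} (f : T →+* S) (A : Matrix (Fin n) (Fin m) T) (z : Fin m → T) :
    (A.map f) *ᵥ (f ∘ z) = f ∘ (A *ᵥ z) := by
  funext i; exact (RingHom.map_mulVec f A z i).symm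

lemma ExM.of_hom (f : T →+* S) (hf : Function.Surjective f)
    (h : ∀ z, (A.map f) *ᵥ z = 0 → ∃ c, (B.map f) *ᵥ c = z) : ExM (RingHom.ker f) A B := by
  intro z hz
  obtain ⟨c, hc⟩ := h (f ∘ z) (by
    rw [map_mulVec']; funext i; exact hz i)
  choose c' hc' using fun i => hf (c i)
  refine ⟨c', fun i => ?_⟩
  have e : c = f ∘ c' := funext fun i => (hc' i).symm
  rw [e, map_mulVec'] at hc
  rw [RingHom.mem_ker, Pi.sub_apply, map_sub]
  exact sub_eq_zero.2 (congrFun hc i).symm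

lemma ExM.glue {w : T} {J : Ideal T} (hwJ : ∀ j ∈ J, w * j = 0) (hann : ∀ r, w * r = 0 → r ∈ J)
    (hAB : A * B = 0) (h1 : ExM (Ideal.span {w}) A B) (h2 : ExM J A B) : ExM ⊥ A B := by
  intro z hz
  have hz0 : A *ᵥ z = 0 := funext fun i => (Submodule.mem_bot T).1 (hz i)
  obtain ⟨c, hc⟩ := h1 z (fun i => by rw [hz0]; exact Submodule.zero_mem _)
  choose z' hz' using fun i => Ideal.mem_span_singleton'.1 (hc i)
  have e : z - B *ᵥ c = w • z' := funext fun i => by rw [← hz' i]; simp [mul_comm]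
  have e2 : w • (A *ᵥ z') = 0 := by
    rw [← Matrix.mulVec_smul, ← e, Matrix.mulVec_sub, Matrix.mulVec_mulVec, hAB, hz0]; simp
  obtain ⟨c', hc'⟩ := h2 z' (fun i => hann _ (congrFun e2 i))
  refine ⟨c + w • c', fun i => ?_⟩
  have := hwJ _ (hc' i)
  rw [Submodule.mem_bot, Matrix.mulVec_add, Matrix.mulVec_smul, ← sub_sub, e]
  simp only [Pi.sub_apply, Pi.smul_apply, smul_eq_mul] at this ⊢
  linear_combination this

lemma ExM.loc [Algebra T S] (M : Submonoid T) [IsLocalization M S] {I : Ideal T}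
    (h : ExM I A B) :
    ExM (I.map (algebraMap T S)) (A.map (algebraMap T S)) (B.map (algebraMap T S)) := by
  classical
  intro z hz
  obtain ⟨b, hb⟩ := IsLocalization.exist_integer_multiples_of_finite M z
  choose z0 hz0 using hb
  have e : algebraMap T S ∘ z0 = (algebraMap T S b) • z := by
    funext i; simp [hz0 i, Algebra.smul_def]
  have h1 : ∀ i, ∃ t ∈ M, t * (A *ᵥ z0) i ∈ I := by
    intro i
    rw [← IsLocalization.algebraMap_mem_map_algebraMap_iff M S]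
    have := congrFun (map_mulVec' (algebraMap T S) A z0) i
    rw [e, Matrix.mulVec_smul] at this
    simp only [Function.comp_apply, Pi.smul_apply, smul_eq_mul] at this
    rw [← this]
    exact Ideal.mul_mem_left _ _ (hz i)
  choose t htM ht using h1
  have hT : (∏ i, t i) ∈ M := Submonoid.prod_mem _ fun i _ => htM i
  obtain ⟨c, hc⟩ := h ((∏ i, t i) • z0) (fun i => by
    rw [Matrix.mulVec_smul, Pi.smul_apply, smul_eq_mul,
      ← Finset.prod_erase_mul _ _ (Finset.mem_univ i), mul_assoc]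
    exact Ideal.mul_mem_left _ _ (ht i))
  obtain ⟨s, hs⟩ := (IsLocalization.map_units S (⟨(∏ i, t i) * b, M.mul_mem hT b.2⟩ : M)).exists_left_inv
  refine ⟨s • (algebraMap T S ∘ c), fun i => ?_⟩
  have h2 := Ideal.mul_mem_left _ s (Ideal.mem_map_of_mem (algebraMap T S) (hc i))
  rw [Matrix.mulVec_smul, map_mulVec']
  have h3 := congrFun e i
  simp only [Function.comp_apply, Pi.smul_apply, smul_eq_mul, Pi.sub_apply, map_sub, map_mul]
    at h2 h3 hs ⊢
  convert h2 using 1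
  rw [h3]
  linear_combination (-z i) * hs
end exm

end Pool.Agent.PS
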