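import Pool.Agent.H.MP_b9e986_al.B

set_option autoImplicit false

namespace Pool.Agent.PS

open Matrix

variable {T S : Type} [CommRing T] [CommRing S]

def bb : ℕ → ℕ
  | 0 => 6
  | 1 => 17
  | 2 => 16
  | 3 => 5
  | _ + 4 => 0

def DL : ℕ → Ma
  | 0 => D1
  | 1 => D2
  | 2 => D3
  | _ + 3 => []

/-- The differentials of the complex. -/
def dd (g : Vars T) (n : ℕ) : Matrix (Fin (bb n)) (Fin (bb (n + 1))) T :=
  mat g (bb n) (bb (n + 1)) (DL n)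

instance (n : ℕ) : IsEmpty (Fin (bb (n + 4))) := inferInstanceAs (IsEmpty (Fin 0))

lemma dd_map (g : Vars T) (f : T →+* S) (n : ℕ) : dd (g.map f) n = (dd g n).map f :=
  mat_map g f _ _ _

lemma dd_mul {g : Vars T} (h : Rel g) (hx : g.w * g.x = 0) (hv : g.w * g.v = 0) :
    ∀ n, dd g n * dd g (n + 1) = 0
  | 0 => L1 h (kR_ok hx hv) c12
  | 1 => L1 h (kR_ok hx hv) c23
  | n + 2 => by ext i j; exact isEmptyElim j

lemma ev_pA {g : Vars T} (h : Rel g) : ev g pA = (g.x + g.y) ^ 3 := by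
  simp only [pA, ev_cons, ev_nil, evM]
  linear_combination (-(g.x ^ 2 * g.y + g.x * g.y ^ 2)) * h.two
lemma ev_pB (g : Vars T) : ev g pB = g.u ^ 2 := by simp [pB, ev_cons, ev_nil, evM]
lemma ev_pC (g : Vars T) : ev g pC = g.v ^ 3 := by simp [pC, ev_cons, ev_nil, evM]
lemma ev_pY (g : Vars T) : ev g pY = g.y := by simp [pY, ev_cons, ev_nil, evM]
lemma ev_pU (g : Vars T) : ev g pU = g.u := by simp [pU, ev_cons, ev_nil, evM]
lemma ev_pW (g : Vars T) : ev g pW = g.w := by simp [pW, ev_cons, ev_nil, evM]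

lemma kill_of_h {n0 n1 n2 : ℕ} {A : Matrix (Fin n0) (Fin n1) T} {B : Matrix (Fin n1) (Fin n2) T}
    {S0 : Matrix (Fin n1) (Fin n0) T} {S1 : Matrix (Fin n2) (Fin n1) T} {a : T}
    (h : B * S1 + S0 * A = a • 1) (z : Fin n1 → T) (hz : A *ᵥ z = 0) :
    ∃ t, B.mulVecLin t = a • z := by
  refine ⟨S1 *ᵥ z, ?_⟩
  have := congrArg (· *ᵥ z) h
  simp only [Matrix.add_mulVec, ← Matrix.mulVec_mulVec, hz, Matrix.mulVec_zero, add_zero,
    Matrix.smul_mulVec, Matrix.one_mulVec] at this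
  exact this

lemma inj_of_h {n2 n3 : ℕ} {B : Matrix (Fin n2) (Fin n3) T} {S2 : Matrix (Fin n3) (Fin n2) T}
    {a b c : T} (H : Reg3 a b c) (h : S2 * B = a • 1) (z : Fin n3 → T)
    (hz : B.mulVecLin z = 0) : z = 0 := by
  apply H.v1
  have := congrArg (· *ᵥ z) h
  simp only [Matrix.mulVecLin_apply] at hz
  simp only [← Matrix.mulVec_mulVec, hz, Matrix.mulVec_zero,
    Matrix.smul_mulVec, Matrix.one_mulVec] at this
  exact this.symm

lemma ex_all {g : Vars T} {a b c : T} (H : Reg3 a b c)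
    (h23 : mat g 17 16 D2 * mat g 16 5 D3 = 0)
    (inj : ∀ z, (mat g 16 5 D3).mulVecLin z = 0 → z = 0)
    (a2 : ∀ z, mat g 17 16 D2 *ᵥ z = 0 → ∃ t, (mat g 16 5 D3).mulVecLin t = a • z)
    (b2 : ∀ z, mat g 17 16 D2 *ᵥ z = 0 → ∃ t, (mat g 16 5 D3).mulVecLin t = b • z)
    (a1 : ∀ z, mat g 6 17 D1 *ᵥ z = 0 → ∃ t, (mat g 17 16 D2).mulVecLin t = a • z)
    (b1 : ∀ z, mat g 6 17 D1 *ᵥ z = 0 → ∃ t, (mat g 17 16 D2).mulVecLin t = b • z)
    (c1 : ∀ z, mat g 6 17 D1 *ᵥ z = 0 → ∃ t, (mat g 17 16 D2).mulVecLin t = c • z) :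
    ∀ n z, dd g n *ᵥ z = 0 → ∃ t, dd g (n + 1) *ᵥ t = z := by
  have e2 := H.ex2 (mat g 17 16 D2).mulVecLin (mat g 16 5 D3).mulVecLin inj a2 b2
  intro n
  match n with
  | 0 =>
    intro z hz
    exact H.ex1 (mat g 17 16 D2).mulVecLin (mat g 16 5 D3).mulVecLin inj e2
      (fun z => by simp only [Matrix.mulVecLin_apply, Matrix.mulVec_mulVec, h23, Matrix.zero_mulVec])
      z (a1 z hz) (b1 z hz) (c1 z hz)
  | 1 => exact e2
  | 2 =>
    intro z hz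
    exact ⟨0, by rw [Matrix.mulVec_zero]; exact (inj z hz).symm⟩
  | n + 3 =>
    intro z _
    exact ⟨0, funext fun i => isEmptyElim i⟩

lemma exW {g : Vars T} (h : Rel g) (hw : g.w = 0)
    (H : Reg3 ((g.x + g.y) ^ 3) (g.u ^ 2) (g.v ^ 3)) :
    ∀ n z, dd g n *ᵥ z = 0 → ∃ t, dd g (n + 1) *ᵥ t = z := by
  have hk := kW_ok hw
  rw [← ev_pA h, ← ev_pB, ← ev_pC] at H
  exact ex_all H (dd_mul h (by simp [hw]) (by simp [hw]) 1) (inj_of_h H (L2 h hk cA3))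
    (kill_of_h (L3 h hk cA2)) (kill_of_h (L3 h hk cB2))
    (kill_of_h (L3 h hk cA1)) (kill_of_h (L3 h hk cB1)) (kill_of_h (L3 h hk cC1))

lemma row5 {g : Vars T} (h : Rel g) (hx : g.x = 0) (hv : g.v = 0) (z : Fin 17 → T) :
    (mat g 1 6 P5 *ᵥ (mat g 6 17 D1 *ᵥ z)) 0
      = g.y * (mat g 2 17 G *ᵥ z) 0 + g.u * (mat g 2 17 G *ᵥ z) 1 := by
  rw [Matrix.mulVec_mulVec, L5 h (kJ_ok hx hv) cP, ← Matrix.mulVec_mulVec]
  generalize mat g 2 17 G *ᵥ z = r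
  simp [Matrix.mulVec, dotProduct, Fin.sum_univ_two, mat, ent, YU, ev_cons, ev_nil, evM]

lemma P5_apply (g : Vars T) (z : Fin 6 → T) : (mat g 1 6 P5 *ᵥ z) 0 = z 5 := by
  simp [Matrix.mulVec, dotProduct, Fin.sum_univ_succ, mat, ent, P5, ev_cons, ev_nil, evM]

lemma exJ {g : Vars T} (h : Rel g) (hx : g.x = 0) (hv : g.v = 0) (H : Reg3 g.y g.u g.w) :
    ∀ n z, dd g n *ᵥ z = 0 → ∃ t, dd g (n + 1) *ᵥ t = z := by
  have hk := kJ_ok hx hv
  have H' := H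
  rw [← ev_pY, ← ev_pU, ← ev_pW] at H
  refine ex_all H (dd_mul h (by simp [hx]) (by simp [hv]) 1) (inj_of_h H (L2 h hk cY3))
    (kill_of_h (L3 h hk cY2)) (kill_of_h (L3 h hk cU2))
    (kill_of_h (L3 h hk cY1)) (kill_of_h (L3 h hk cU1)) ?_
  intro z hz
  have e := row5 h hx hv z
  rw [hz, Matrix.mulVec_zero] at e
  set r := mat g 2 17 G *ᵥ z with hr
  obtain ⟨t, ht⟩ := H'.r2 (r 1) (-r 0) (by
    simp only [Pi.zero_apply] at e; linear_combination -e)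
  have h0 : r 0 = g.u * t := by
    have : r 0 + g.u * t = 0 := H'.r1 _ (by
      simp only [Pi.zero_apply] at e; rw [ht] at e; linear_combination -e)
    exact eq_of_add h this
  have hr2 : r = mat g 2 1 UY *ᵥ (fun _ => t) := by
    funext i
    fin_cases i
    · simp [Matrix.mulVec, dotProduct, mat, ent, UY, ev_cons, ev_nil, evM, h0]
    · simp [Matrix.mulVec, dotProduct, mat, ent, UY, ev_cons, ev_nil, evM, ht]
  refine ⟨mat g 16 17 KW1 *ᵥ z + mat g 16 1 Q *ᵥ (fun _ => t), ?_⟩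
  have := congrArg (· *ᵥ z) (L4 h hk cW1)
  simp only [Matrix.add_mulVec, ← Matrix.mulVec_mulVec, hz, Matrix.mulVec_zero, add_zero,
    Matrix.smul_mulVec, Matrix.one_mulVec] at this
  rw [← hr, hr2, Matrix.mulVec_mulVec (M := mat g 17 2 Wp), L5 h hk cQ,
    ← Matrix.mulVec_mulVec] at this
  rw [Matrix.mulVecLin_apply, Matrix.mulVec_add]
  exact this

/-- Level zero: the three elements kill the cokernel modulo `w`. -/
lemma k0W {g : Vars T} (h : Rel g) (hw : g.w = 0) (a : T)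
    (ha : a = (g.x + g.y) ^ 3 ∨ a = g.u ^ 2 ∨ a = g.v ^ 3) (z : Fin 6 → T) :
    ∃ t, mat g 6 17 D1 *ᵥ t = a • z := by
  have hk := kW_ok hw
  have key : ∀ (S0 : Ma) (p : Po), h0 kW S0 p = true → ∃ t, mat g 6 17 D1 *ᵥ t = ev g p • z := by
    intro S0 p hp
    refine ⟨mat g 17 6 S0 *ᵥ z, ?_⟩
    rw [Matrix.mulVec_mulVec, L2 h hk hp, Matrix.smul_mulVec, Matrix.one_mulVec]
  rcases ha with rfl | rfl | rfl
  · rw [← ev_pA h]; exact key _ _ cA0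
  · rw [← ev_pB]; exact key _ _ cB0
  · rw [← ev_pC]; exact key _ _ cC0

lemma k0J {g : Vars T} (h : Rel g) (hx : g.x = 0) (hv : g.v = 0) (a : T)
    (ha : a = g.y ∨ a = g.u) (z : Fin 6 → T) :
    ∃ t, mat g 6 17 D1 *ᵥ t = a • z := by
  have hk := kJ_ok hx hv
  have key : ∀ (S0 : Ma) (p : Po), h0 kJ S0 p = true → ∃ t, mat g 6 17 D1 *ᵥ t = ev g p • z := by
    intro S0 p hp
    refine ⟨mat g 17 6 S0 *ᵥ z, ?_⟩
    rw [Matrix.mulVec_mulVec, L2 h hk hp, Matrix.smul_mulVec, Matrix.one_mulVec]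
  rcases ha with rfl | rfl
  · rw [← ev_pY]; exact key _ _ cY0
  · rw [← ev_pU]; exact key _ _ cU0

end Pool.Agent.PS
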