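import Pool.Agent.H.MP_b9e986_al.A

set_option autoImplicit false

namespace Pool.Agent.PS

def D1 : Ma :=
  [[[⟨0,1,0,0,0⟩],[],[],[⟨0,0,0,1,0⟩],[],[],[⟨0,0,1,0,0⟩],[⟨2,0,0,0,0⟩],[⟨0,0,0,1,0⟩],[],[],[],[⟨0,0,0,0,1⟩],[],[⟨1,0,0,0,0⟩]],
   [[],[⟨0,1,0,0,0⟩],[],[],[],[],[],[⟨0,0,1,0,0⟩],[],[],[],[],[],[⟨0,0,0,0,1⟩],[⟨0,0,0,1,0⟩],[⟨1,0,0,0,0⟩]],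
   [[],[],[⟨0,1,0,0,0⟩],[],[],[],[],[],[⟨0,0,1,0,0⟩],[],[],[],[⟨1,0,0,0,0⟩],[],[⟨0,0,0,0,1⟩],[⟨0,0,0,1,0⟩]],
   [[],[],[],[⟨0,1,0,0,0⟩,⟨2,0,0,0,0⟩],[],[],[],[],[],[⟨0,0,1,0,0⟩],[],[],[],[⟨0,0,0,1,0⟩],[],[⟨0,0,0,0,1⟩],[⟨1,0,0,0,0⟩]],
   [[],[],[],[],[⟨0,1,0,0,0⟩,⟨1,0,0,0,0⟩],[],[],[⟨1,0,0,0,0⟩],[],[],[⟨0,0,1,0,0⟩],[],[],[],[],[],[⟨0,0,0,0,1⟩,⟨0,0,0,1,0⟩]],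
   [[],[],[],[],[⟨0,0,0,1,0⟩],[⟨0,1,0,0,0⟩,⟨1,0,0,0,0⟩],[⟨1,0,0,0,0⟩],[⟨0,0,0,1,0⟩],[],[],[],[⟨0,0,1,0,0⟩]]]

def D2 : Ma :=
  [[[⟨0,0,1,0,0⟩],[⟨1,0,0,0,0⟩],[⟨0,0,0,1,0⟩],[⟨1,0,0,0,0⟩],[],[],[⟨0,0,0,0,1⟩],[],[⟨1,0,0,0,0⟩],[],[],[⟨1,0,0,1,0⟩]],
   [[],[⟨0,0,1,0,0⟩,⟨1,0,0,1,0⟩],[],[],[],[],[],[⟨0,0,0,0,1⟩],[⟨0,0,0,1,0⟩],[⟨1,0,0,0,0⟩],[⟨1,0,0,0,0⟩],[],[],[⟨1,0,0,0,0⟩]],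
   [[],[],[⟨0,0,1,0,0⟩],[],[],[],[⟨1,0,0,0,0⟩],[⟨1,0,0,0,0⟩],[⟨0,0,0,0,1⟩],[⟨0,0,0,1,0⟩],[],[],[],[],[⟨1,0,0,0,0⟩]],
   [[],[],[],[⟨0,0,1,0,0⟩],[],[],[],[⟨0,0,0,1,0⟩],[],[⟨0,0,0,0,1⟩],[],[⟨1,0,0,0,0⟩]],
   [[],[],[],[],[⟨0,0,1,0,0⟩],[],[],[],[],[],[⟨0,0,0,0,1⟩,⟨0,0,0,1,0⟩],[⟨1,0,0,1,0⟩],[],[],[⟨1,0,0,0,0⟩]],
   [[],[⟨0,0,0,1,0⟩],[],[],[],[⟨0,0,1,0,0⟩],[],[],[],[],[],[],[],[⟨1,0,0,0,0⟩]],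
   [[⟨0,1,0,0,0⟩],[⟨0,0,0,1,0⟩],[],[],[],[],[],[],[],[],[],[⟨0,0,0,0,1⟩,⟨0,0,0,2,0⟩],[],[⟨1,0,0,0,0⟩]],
   [[],[⟨0,1,0,0,0⟩],[],[],[],[],[],[],[],[],[⟨0,0,0,1,0⟩],[],[⟨0,0,0,0,1⟩],[],[⟨1,0,0,0,0⟩]],
   [[],[],[⟨0,1,0,0,0⟩],[],[],[],[],[⟨0,0,0,1,0⟩],[],[],[⟨2,0,0,0,0⟩],[⟨1,0,0,0,0⟩],[],[⟨0,0,0,0,1⟩]],
   [[],[],[],[⟨0,1,0,0,0⟩],[],[],[],[],[],[],[⟨0,0,0,1,0⟩],[⟨0,0,0,1,0⟩],[⟨0,0,0,1,0⟩],[],[⟨0,0,0,0,1⟩],[⟨1,0,0,0,0⟩]],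
   [[],[⟨0,0,0,1,0⟩],[],[⟨1,0,0,1,0⟩],[⟨0,1,0,0,0⟩,⟨1,0,0,0,0⟩],[],[],[],[],[],[],[⟨0,0,0,2,0⟩],[],[],[⟨0,0,0,1,0⟩],[⟨0,0,0,0,1⟩,⟨0,0,0,1,0⟩]],
   [[⟨0,0,0,1,0⟩],[],[],[],[⟨0,0,0,1,0⟩],[⟨0,1,0,0,0⟩,⟨1,0,0,0,0⟩],[],[],[],[],[],[],[],[⟨0,0,0,1,0⟩]],
   [[],[],[],[],[],[],[⟨0,1,0,0,0⟩],[],[],[],[⟨1,0,1,0,0⟩],[⟨0,0,1,0,0⟩],[],[],[⟨0,0,0,2,0⟩]],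
   [[],[],[],[],[],[],[],[⟨0,1,0,0,0⟩,⟨2,0,0,0,0⟩],[],[],[],[],[⟨0,0,1,0,0⟩]],
   [[],[⟨0,0,1,1,0⟩],[],[],[],[],[],[],[⟨0,1,0,0,0⟩],[],[],[],[],[⟨0,0,1,0,0⟩],[⟨2,0,0,0,0⟩]],
   [[],[],[],[],[],[],[],[],[],[⟨0,1,0,0,0⟩],[],[],[],[],[⟨0,0,1,0,0⟩,⟨1,0,0,1,0⟩]],
   [[],[],[],[⟨1,0,1,0,0⟩],[],[],[],[],[],[],[⟨0,1,0,0,0⟩],[⟨2,0,0,0,0⟩],[],[],[],[⟨0,0,1,0,0⟩]]]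

def D3 : Ma :=
  [[[⟨0,0,0,0,1⟩,⟨0,0,0,2,0⟩],[],[⟨1,0,0,0,0⟩],[],[⟨2,0,0,1,0⟩]],
   [[],[⟨0,0,0,0,1⟩],[],[⟨1,0,0,0,0⟩],[⟨1,0,0,0,0⟩]],
   [[⟨1,0,0,0,0⟩],[⟨1,0,0,0,0⟩],[⟨0,0,0,0,1⟩]],
   [[⟨0,0,0,1,0⟩],[⟨0,0,0,1,0⟩],[],[⟨0,0,0,0,1⟩],[⟨2,0,0,0,0⟩]],
   [[⟨0,0,0,2,0⟩],[],[],[⟨0,0,0,1,0⟩],[⟨0,0,0,0,1⟩,⟨0,0,0,1,0⟩,⟨2,0,0,1,0⟩]],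
   [[],[],[⟨0,0,0,1,0⟩]],
   [[⟨0,0,1,0,0⟩],[],[],[⟨0,0,0,2,0⟩]],
   [[],[⟨0,0,1,0,0⟩]],
   [[],[],[⟨0,0,1,0,0⟩],[⟨1,0,0,0,0⟩],[⟨1,0,0,0,0⟩,⟨2,0,0,0,0⟩]],
   [[],[],[],[⟨0,0,1,0,0⟩,⟨1,0,0,1,0⟩]],
   [[],[],[],[],[⟨0,0,1,0,0⟩]],
   [[⟨0,1,0,0,0⟩],[],[],[],[⟨1,0,1,0,0⟩]],
   [[],[⟨0,1,0,0,0⟩,⟨2,0,0,0,0⟩]],
   [[],[],[⟨0,1,0,0,0⟩],[⟨0,0,0,1,0⟩],[⟨0,0,0,1,0⟩]],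
   [[],[],[],[⟨0,1,0,0,0⟩]],
   [[],[⟨1,0,0,1,0⟩],[],[],[⟨0,1,0,0,0⟩]]]

def SA0 : Ma :=
  [[[⟨0,0,1,1,0⟩,⟨0,2,0,0,0⟩,⟨1,0,0,0,0⟩],[],[],[⟨0,1,0,1,0⟩]],
   [[⟨0,0,1,0,0⟩],[⟨0,0,1,1,0⟩,⟨0,2,0,0,0⟩,⟨2,0,0,0,0⟩]],
   [[],[],[⟨0,0,1,1,0⟩,⟨0,2,0,0,0⟩]],
   [[],[],[],[⟨0,2,0,0,0⟩,⟨1,0,0,0,0⟩]],
   [[⟨1,0,0,0,0⟩],[],[],[],[⟨0,2,0,0,0⟩,⟨2,0,0,0,0⟩]],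
   [[⟨0,0,0,1,0⟩],[],[],[],[⟨0,1,0,1,0⟩,⟨1,0,0,1,0⟩],[⟨0,2,0,0,0⟩,⟨2,0,0,0,0⟩]],
   [[⟨0,0,0,1,0⟩]],
   [[⟨0,1,0,0,0⟩,⟨1,0,0,0,0⟩]],
   [[],[],[],[⟨1,0,0,0,0⟩]],
   [[],[],[],[⟨0,0,0,1,0⟩,⟨0,0,1,2,0⟩,⟨0,1,0,1,0⟩,⟨1,0,0,1,0⟩]],
   [],
   [],
   [[⟨0,1,0,0,0⟩],[⟨1,0,0,1,0⟩],[⟨0,0,1,1,0⟩,⟨2,0,0,0,0⟩],[⟨0,0,1,0,0⟩]],
   [],
   [],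
   [[⟨0,0,1,0,0⟩],[⟨2,0,0,0,0⟩]],
   []]

def SA1 : Ma :=
  [[[],[],[],[],[],[],[⟨0,0,1,1,0⟩,⟨0,2,0,0,0⟩],[⟨0,1,0,1,0⟩,⟨1,0,0,1,0⟩],[],[⟨1,0,0,1,0⟩],[],[],[],[],[],[],[⟨0,0,0,2,0⟩]],
   [[⟨0,1,0,0,0⟩],[],[],[⟨0,0,0,1,0⟩],[],[],[⟨0,0,1,0,0⟩],[⟨0,0,1,1,0⟩,⟨0,2,0,0,0⟩],[⟨0,0,0,1,0⟩],[],[],[],[],[],[⟨1,0,0,0,0⟩],[],[⟨0,1,0,1,0⟩]],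
   [[],[],[],[⟨1,0,0,0,0⟩],[],[],[],[],[⟨0,0,1,1,0⟩,⟨0,2,0,0,0⟩,⟨2,0,0,0,0⟩],[],[],[],[],[⟨0,1,0,1,0⟩],[],[],[⟨1,0,1,1,0⟩]],
   [[],[],[],[⟨0,0,0,1,0⟩,⟨0,0,1,2,0⟩,⟨0,1,0,1,0⟩,⟨1,0,0,1,0⟩],[],[],[],[],[],[⟨0,2,0,0,0⟩],[],[],[],[],[],[],[⟨0,1,0,1,0⟩]],
   [[],[],[],[],[],[],[],[⟨0,1,0,1,0⟩],[],[⟨1,0,0,1,0⟩],[⟨0,2,0,0,0⟩,⟨2,0,0,0,0⟩]],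
   [[],[],[],[],[],[],[⟨0,1,0,1,0⟩,⟨1,0,0,1,0⟩],[],[],[],[⟨0,1,0,1,0⟩,⟨1,0,0,1,0⟩],[⟨0,2,0,0,0⟩,⟨2,0,0,0,0⟩]],
   [[⟨0,0,0,2,0⟩,⟨0,1,0,0,0⟩],[⟨1,0,0,1,0⟩],[⟨0,0,1,1,0⟩,⟨2,0,0,0,0⟩],[⟨0,0,0,1,0⟩,⟨0,0,1,0,0⟩],[],[],[⟨0,0,1,0,0⟩,⟨1,0,0,1,0⟩],[],[⟨0,0,0,1,0⟩,⟨1,0,1,0,0⟩],[],[],[],[⟨0,0,1,1,0⟩,⟨0,2,0,0,0⟩],[⟨1,0,0,0,0⟩],[⟨1,0,0,0,0⟩],[⟨1,0,0,1,0⟩],[⟨0,0,2,1,0⟩]],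
   [[],[],[],[],[],[],[],[],[],[],[],[],[],[⟨0,2,0,0,0⟩,⟨1,0,0,0,0⟩]],
   [[⟨0,0,1,1,0⟩,⟨2,0,0,0,0⟩],[],[],[⟨1,0,0,1,0⟩],[],[],[],[⟨0,1,1,1,0⟩,⟨1,0,1,1,0⟩,⟨2,0,0,0,0⟩],[⟨1,0,0,1,0⟩],[],[],[],[],[],[⟨0,0,1,1,0⟩,⟨0,2,0,0,0⟩],[],[⟨0,0,1,2,0⟩,⟨1,0,0,1,0⟩]],
   [[⟨1,0,0,1,0⟩],[⟨2,0,0,0,0⟩],[],[⟨1,0,0,0,0⟩],[],[],[⟨2,0,0,0,0⟩],[],[⟨1,0,0,0,0⟩],[],[],[],[],[],[],[⟨0,0,1,1,0⟩,⟨0,2,0,0,0⟩,⟨2,0,0,0,0⟩]],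
   [[],[],[],[⟨1,0,0,0,0⟩],[],[],[],[],[⟨1,0,0,0,0⟩],[],[],[],[],[],[],[],[⟨0,2,0,0,0⟩]],
   [[],[],[],[],[],[],[],[],[],[⟨0,0,1,0,0⟩],[],[],[],[],[],[],[⟨1,0,0,0,0⟩]],
   [[],[],[],[],[],[],[],[],[],[],[],[],[],[⟨0,0,0,1,0⟩,⟨0,0,1,2,0⟩,⟨0,1,0,1,0⟩,⟨1,0,0,1,0⟩]],
   [[],[],[],[],[],[],[⟨0,0,1,1,0⟩,⟨2,0,0,0,0⟩],[⟨1,0,0,1,0⟩],[],[],[],[],[],[],[],[],[⟨0,0,0,2,0⟩]],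
   [[⟨0,1,0,0,0⟩],[],[],[],[],[],[⟨0,0,1,0,0⟩],[],[],[],[],[],[],[],[⟨1,0,0,0,0⟩]],
   [[],[],[],[⟨0,0,0,1,0⟩,⟨0,0,1,2,0⟩,⟨1,0,0,1,0⟩,⟨1,0,1,2,0⟩,⟨2,0,0,1,0⟩],[],[],[],[],[⟨0,0,0,1,0⟩],[⟨0,1,1,1,0⟩,⟨2,0,0,0,0⟩],[],[],[],[],[],[],[⟨0,0,1,2,0⟩,⟨0,1,0,1,0⟩,⟨1,0,0,1,0⟩]]]

def SA2 : Ma :=
  [[[],[],[⟨2,0,0,0,0⟩],[⟨0,0,1,0,0⟩,⟨1,0,2,1,0⟩],[],[],[],[],[],[],[⟨1,0,1,1,0⟩,⟨3,0,0,0,0⟩],[⟨0,0,1,1,0⟩,⟨0,2,0,0,0⟩,⟨1,0,0,0,0⟩,⟨2,0,0,0,0⟩,⟨2,0,1,1,0⟩],[⟨1,0,0,0,0⟩],[],[],[⟨0,0,2,1,0⟩]],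
   [[],[],[],[],[],[],[],[⟨0,0,0,1,0⟩,⟨0,0,1,2,0⟩,⟨0,1,0,1,0⟩,⟨1,0,0,1,0⟩],[],[],[],[],[⟨0,2,0,0,0⟩,⟨1,0,0,0,0⟩]],
   [[⟨0,0,1,1,0⟩,⟨2,0,0,0,0⟩],[],[],[⟨0,0,1,2,0⟩,⟨2,0,0,1,0⟩],[],[],[],[],[],[],[],[],[],[⟨0,0,1,1,0⟩,⟨0,2,0,0,0⟩],[⟨0,1,0,1,0⟩,⟨1,0,0,1,0⟩],[⟨0,1,0,1,0⟩,⟨1,0,0,1,0⟩]],
   [[],[⟨2,0,0,0,0⟩],[⟨0,0,0,1,0⟩],[⟨1,0,0,0,0⟩],[],[],[],[],[],[],[],[],[],[],[⟨0,0,1,1,0⟩,⟨0,2,0,0,0⟩,⟨2,0,0,0,0⟩]],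
   [[],[],[⟨0,0,0,1,0⟩],[⟨0,1,1,1,0⟩,⟨1,0,0,0,0⟩],[],[],[],[],[],[],[⟨0,1,0,1,0⟩,⟨1,0,0,1,0⟩],[⟨0,0,1,2,0⟩],[],[],[],[⟨0,2,0,0,0⟩]]]

def SB0 : Ma :=
  [[[],[],[⟨1,0,0,0,0⟩]],
   [[],[⟨2,0,0,0,0⟩]],
   [],
   [],
   [[],[⟨0,0,1,0,0⟩]],
   [],
   [[⟨0,0,1,0,0⟩]],
   [[],[⟨0,0,1,0,0⟩]],
   [[],[],[⟨0,0,1,0,0⟩]],
   [[],[],[],[⟨0,0,1,0,0⟩]],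
   [[],[⟨0,1,0,0,0⟩],[],[],[⟨0,0,1,0,0⟩]],
   [[⟨1,0,0,0,0⟩],[],[],[],[],[⟨0,0,1,0,0⟩]],
   [],
   [],
   [[],[⟨1,0,1,0,0⟩]],
   [],
   []]

def SB1 : Ma :=
  [[[⟨0,0,1,0,0⟩],[],[],[⟨1,0,0,0,0⟩],[],[],[],[],[⟨1,0,0,0,0⟩],[],[],[],[⟨1,0,0,1,0⟩]],
   [[],[⟨0,0,1,0,0⟩],[],[],[],[],[],[],[],[],[],[],[],[],[⟨1,0,0,0,0⟩]],
   [[],[],[⟨0,0,1,0,0⟩],[],[],[],[],[],[],[],[],[],[],[],[],[⟨1,0,0,0,0⟩]],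
   [[],[],[],[⟨0,0,1,0,0⟩],[],[],[],[],[],[],[],[],[⟨1,0,0,0,0⟩]],
   [[],[⟨0,1,0,0,0⟩],[],[],[⟨0,0,1,0,0⟩],[],[],[⟨0,0,1,0,0⟩],[],[],[],[],[⟨1,0,0,1,0⟩],[],[⟨0,0,0,1,0⟩]],
   [[],[],[],[],[],[⟨0,0,1,0,0⟩],[],[⟨2,0,0,0,0⟩],[],[],[],[],[],[],[⟨1,0,0,0,0⟩]],
   [[],[],[],[],[],[],[],[],[],[],[],[],[],[],[],[⟨1,0,0,1,0⟩]],
   [],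
   [[],[⟨0,0,1,0,0⟩],[],[],[],[],[],[],[],[],[],[],[],[],[⟨1,0,0,0,0⟩]],
   [[],[],[],[],[],[],[],[],[],[],[],[],[],[],[],[⟨2,0,0,0,0⟩]],
   [],
   [[],[],[],[],[],[],[],[],[],[],[],[],[⟨0,0,1,0,0⟩]],
   [[],[],[],[],[],[],[],[],[],[],[],[],[],[⟨0,0,1,0,0⟩]],
   [[],[⟨0,1,0,0,0⟩],[],[],[],[],[],[⟨1,0,1,0,0⟩],[],[],[],[],[],[],[⟨0,0,0,1,0⟩,⟨0,0,1,0,0⟩]],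
   [[],[],[],[],[],[],[],[],[],[],[],[],[],[],[],[⟨0,0,1,0,0⟩]],
   [[],[],[],[⟨1,0,1,0,0⟩],[],[],[],[],[],[],[],[],[],[],[],[],[⟨0,0,1,0,0⟩]]]

def SB2 : Ma :=
  [[[],[],[],[],[],[],[⟨0,0,1,0,0⟩],[],[],[],[],[],[],[],[⟨1,0,0,1,0⟩]],
   [[],[],[],[],[],[],[],[⟨0,0,1,0,0⟩]],
   [[],[⟨0,0,1,0,0⟩],[],[],[],[],[],[],[⟨0,0,1,0,0⟩],[],[⟨2,0,0,0,0⟩]],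
   [[],[],[],[],[],[],[],[],[],[⟨0,0,1,0,0⟩],[],[],[],[],[⟨2,0,0,0,0⟩]],
   [[],[],[],[],[],[],[],[],[],[],[⟨0,0,1,0,0⟩]]]

def SC0 : Ma :=
  [[],
   [[],[],[⟨1,0,0,0,0⟩]],
   [],
   [],
   [[],[],[⟨0,0,0,1,0⟩],[],[],[⟨0,0,0,2,0⟩]],
   [],
   [],
   [[],[],[⟨0,0,0,1,0⟩]],
   [[⟨0,0,0,2,0⟩],[⟨1,0,0,1,0⟩]],
   [[],[],[⟨0,0,0,1,0⟩],[],[],[⟨0,0,0,2,0⟩]],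
   [],
   [],
   [[⟨0,1,0,1,0⟩],[⟨0,0,1,1,0⟩]],
   [[],[],[],[⟨0,0,0,2,0⟩],[⟨1,0,0,1,0⟩],[⟨2,0,0,0,0⟩]],
   [[],[⟨0,0,0,2,0⟩],[⟨1,0,0,1,0⟩]],
   [[],[],[⟨0,0,0,2,0⟩]],
   [[],[],[⟨0,1,0,0,0⟩],[],[⟨0,0,0,2,0⟩],[⟨0,1,0,1,0⟩,⟨1,0,0,1,0⟩]]]

def SC1 : Ma :=
  [[[],[],[],[],[],[],[],[],[],[],[],[⟨0,0,0,2,0⟩]],
   [[],[],[],[],[],[⟨0,0,0,2,0⟩]],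
   [[⟨0,0,0,2,0⟩],[⟨1,0,0,1,0⟩],[⟨2,0,0,0,0⟩],[],[],[⟨2,0,0,1,0⟩],[⟨1,0,0,1,0⟩],[⟨2,0,0,0,0⟩]],
   [],
   [],
   [],
   [[⟨0,1,0,1,0⟩],[⟨0,0,1,1,0⟩],[⟨1,0,1,0,0⟩],[⟨0,0,0,2,0⟩],[],[⟨1,0,0,0,0⟩,⟨1,0,1,1,0⟩],[⟨0,0,1,1,0⟩,⟨1,0,0,0,0⟩],[⟨1,0,1,0,0⟩],[],[],[],[⟨0,0,1,0,0⟩]],
   [[],[],[],[⟨0,0,0,2,0⟩],[],[⟨1,0,0,0,0⟩],[⟨1,0,0,0,0⟩],[],[],[],[],[⟨0,0,1,0,0⟩]],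
   [[],[⟨0,0,0,2,0⟩],[⟨1,0,0,1,0⟩],[],[],[⟨1,0,0,2,0⟩],[],[⟨1,0,0,1,0⟩]],
   [[],[],[⟨0,0,0,2,0⟩],[],[],[],[],[],[⟨0,0,1,0,0⟩],[],[],[],[⟨1,0,0,0,0⟩]],
   [[],[],[⟨0,1,0,0,0⟩],[],[],[⟨0,1,0,1,0⟩],[],[⟨0,0,0,2,0⟩],[],[],[],[],[],[],[],[⟨0,0,0,1,0⟩]],
   [[],[],[],[],[],[⟨0,0,0,1,0⟩],[⟨0,0,0,1,0⟩],[],[],[],[],[⟨0,1,0,0,0⟩]],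
   [[],[],[],[],[⟨0,0,0,2,0⟩],[⟨0,0,0,1,0⟩,⟨1,0,0,1,0⟩],[⟨0,0,0,1,0⟩],[],[],[⟨0,0,0,2,0⟩],[⟨1,0,0,1,0⟩],[⟨0,1,0,0,0⟩]],
   [],
   [[],[],[],[],[],[],[],[],[⟨0,1,0,0,0⟩],[],[],[],[⟨0,0,0,1,0⟩]],
   [[],[],[],[],[],[],[⟨0,0,0,2,0⟩],[],[⟨0,1,0,0,0⟩],[],[⟨0,0,0,2,0⟩],[⟨0,1,0,1,0⟩],[⟨0,0,0,1,0⟩]]]

def SC2 : Ma :=
  [[[],[],[⟨1,0,1,0,0⟩],[],[⟨0,0,0,1,0⟩],[⟨0,1,0,0,0⟩,⟨1,0,1,1,0⟩],[⟨2,0,0,0,0⟩],[⟨2,0,0,0,0⟩],[],[],[],[],[],[⟨0,0,0,1,0⟩,⟨2,0,0,1,0⟩]],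
   [[],[],[],[⟨0,0,0,2,0⟩],[⟨0,0,0,1,0⟩],[⟨0,1,0,0,0⟩],[],[],[],[],[],[],[],[⟨0,0,0,1,0⟩]],
   [[],[],[],[],[],[⟨0,0,0,2,0⟩]],
   [[],[],[⟨0,1,0,0,0⟩],[],[],[],[⟨0,0,0,1,0⟩],[⟨0,0,0,1,0⟩]],
   [[],[],[⟨0,1,0,0,0⟩],[],[],[⟨0,1,0,1,0⟩],[⟨0,0,0,1,0⟩],[⟨0,0,0,1,0⟩],[],[],[],[],[],[⟨0,0,0,2,0⟩]]]

def KY0 : Ma :=
  [[[⟨0,0,0,0,0⟩]],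
   [[],[⟨0,0,0,0,0⟩]],
   [[],[],[⟨0,0,0,0,0⟩]],
   [[],[],[],[⟨0,0,0,0,0⟩]],
   [[],[],[],[],[⟨0,0,0,0,0⟩]],
   [[],[],[],[],[],[⟨0,0,0,0,0⟩]],
   [],
   [],
   [],
   [],
   [],
   [],
   [],
   [],
   [],
   [],
   []]

def KY1 : Ma :=
  [[[],[],[],[],[],[],[⟨0,0,0,0,0⟩]],
   [[],[],[],[],[],[],[],[⟨0,0,0,0,0⟩]],
   [[],[],[],[],[],[],[],[],[⟨0,0,0,0,0⟩]],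
   [[],[],[],[],[],[],[],[],[],[⟨0,0,0,0,0⟩]],
   [[],[],[],[],[],[],[],[],[],[],[⟨0,0,0,0,0⟩]],
   [[],[],[],[],[],[],[],[],[],[],[],[⟨0,0,0,0,0⟩]],
   [[],[],[],[],[],[],[],[],[],[],[],[],[⟨0,0,0,0,0⟩]],
   [[],[],[],[],[],[],[],[],[],[],[],[],[],[⟨0,0,0,0,0⟩]],
   [[],[],[],[],[],[],[],[],[],[],[],[],[],[],[⟨0,0,0,0,0⟩]],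
   [[],[],[],[],[],[],[],[],[],[],[],[],[],[],[],[⟨0,0,0,0,0⟩]],
   [[],[],[],[],[],[],[],[],[],[],[],[],[],[],[],[],[⟨0,0,0,0,0⟩]],
   [],
   [],
   [],
   [],
   []]

def KY2 : Ma :=
  [[[],[],[],[],[],[],[],[],[],[],[],[⟨0,0,0,0,0⟩]],
   [[],[],[],[],[],[],[],[],[],[],[],[],[⟨0,0,0,0,0⟩]],
   [[],[],[],[],[],[],[],[],[],[],[],[],[],[⟨0,0,0,0,0⟩]],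
   [[],[],[],[],[],[],[],[],[],[],[],[],[],[],[⟨0,0,0,0,0⟩]],
   [[],[],[],[],[],[],[],[],[],[],[],[],[],[],[],[⟨0,0,0,0,0⟩]]]

def KU0 : Ma :=
  [[],
   [],
   [],
   [],
   [],
   [],
   [[⟨0,0,0,0,0⟩]],
   [[],[⟨0,0,0,0,0⟩]],
   [[],[],[⟨0,0,0,0,0⟩]],
   [[],[],[],[⟨0,0,0,0,0⟩]],
   [[],[],[],[],[⟨0,0,0,0,0⟩]],
   [[],[],[],[],[],[⟨0,0,0,0,0⟩]],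
   [],
   [],
   [],
   [],
   []]

def KU1 : Ma :=
  [[[⟨0,0,0,0,0⟩]],
   [[],[⟨0,0,0,0,0⟩]],
   [[],[],[⟨0,0,0,0,0⟩]],
   [[],[],[],[⟨0,0,0,0,0⟩]],
   [[],[],[],[],[⟨0,0,0,0,0⟩]],
   [[],[],[],[],[],[⟨0,0,0,0,0⟩]],
   [],
   [],
   [],
   [],
   [],
   [[],[],[],[],[],[],[],[],[],[],[],[],[⟨0,0,0,0,0⟩]],
   [[],[],[],[],[],[],[],[],[],[],[],[],[],[⟨0,0,0,0,0⟩]],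
   [[],[],[],[],[],[],[],[],[],[],[],[],[],[],[⟨0,0,0,0,0⟩]],
   [[],[],[],[],[],[],[],[],[],[],[],[],[],[],[],[⟨0,0,0,0,0⟩]],
   [[],[],[],[],[],[],[],[],[],[],[],[],[],[],[],[],[⟨0,0,0,0,0⟩]]]

def KU2 : Ma :=
  [[[],[],[],[],[],[],[⟨0,0,0,0,0⟩]],
   [[],[],[],[],[],[],[],[⟨0,0,0,0,0⟩]],
   [[],[],[],[],[],[],[],[],[⟨0,0,0,0,0⟩]],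
   [[],[],[],[],[],[],[],[],[],[⟨0,0,0,0,0⟩]],
   [[],[],[],[],[],[],[],[],[],[],[⟨0,0,0,0,0⟩]]]

def KW0 : Ma :=
  [[],
   [],
   [],
   [],
   [],
   [],
   [],
   [],
   [],
   [],
   [],
   [],
   [[⟨0,0,0,0,0⟩]],
   [[],[⟨0,0,0,0,0⟩]],
   [[],[],[⟨0,0,0,0,0⟩]],
   [[],[],[],[⟨0,0,0,0,0⟩]],
   [[],[],[],[],[⟨0,0,0,0,0⟩]]]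

def KW1 : Ma :=
  [[],
   [],
   [],
   [],
   [],
   [],
   [[⟨0,0,0,0,0⟩]],
   [[],[⟨0,0,0,0,0⟩]],
   [[],[],[⟨0,0,0,0,0⟩]],
   [[],[],[],[⟨0,0,0,0,0⟩]],
   [[],[],[],[],[⟨0,0,0,0,0⟩]],
   [[],[],[],[],[],[],[⟨0,0,0,0,0⟩]],
   [[],[],[],[],[],[],[],[⟨0,0,0,0,0⟩]],
   [[],[],[],[],[],[],[],[],[⟨0,0,0,0,0⟩]],
   [[],[],[],[],[],[],[],[],[],[⟨0,0,0,0,0⟩]],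
   [[],[],[],[],[],[],[],[],[],[],[⟨0,0,0,0,0⟩]]]

def P5 : Ma :=
  [[[],[],[],[],[],[⟨0,0,0,0,0⟩]]]

def YU : Ma :=
  [[[⟨0,1,0,0,0⟩],[⟨0,0,1,0,0⟩]]]

def G : Ma :=
  [[[],[],[],[],[],[⟨0,0,0,0,0⟩]],
   [[],[],[],[],[],[],[],[],[],[],[],[⟨0,0,0,0,0⟩]]]

def Wp : Ma :=
  [[],
   [],
   [],
   [],
   [],
   [[⟨0,0,0,0,1⟩]],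
   [],
   [],
   [],
   [],
   [],
   [[],[⟨0,0,0,0,1⟩]],
   [],
   [],
   [],
   [],
   []]

def UY : Ma :=
  [[[⟨0,0,1,0,0⟩]],
   [[⟨0,1,0,0,0⟩]]]

def Q : Ma :=
  [[],
   [],
   [],
   [],
   [],
   [[⟨0,0,0,0,1⟩]],
   [],
   [],
   [],
   [],
   [],
   [],
   [],
   [],
   [],
   []]

def pA : Po := [⟨3,0,0,0,0⟩, ⟨2,1,0,0,0⟩, ⟨1,2,0,0,0⟩, ⟨0,3,0,0,0⟩]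
def pB : Po := [⟨0,0,2,0,0⟩]
def pC : Po := [⟨0,0,0,3,0⟩]
def pY : Po := [⟨0,1,0,0,0⟩]
def pU : Po := [⟨0,0,1,0,0⟩]
def pW : Po := [⟨0,0,0,0,1⟩]

lemma c12 : chk kR 6 16 (mulE 17 D1 D2) = true := by decide +kernel
lemma c23 : chk kR 17 5 (mulE 16 D2 D3) = true := by decide +kernel

def h0 (k : Mo → Bool) (S0 : Ma) (a : Po) : Bool :=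
  chk k 6 6 (fun i j => mulE 17 D1 S0 i j ++ dia a i j)
def h1 (k : Mo → Bool) (S0 S1 : Ma) (a : Po) : Bool :=
  chk k 17 17 (fun i j => (mulE 16 D2 S1 i j ++ mulE 6 S0 D1 i j) ++ dia a i j)
def h2 (k : Mo → Bool) (S1 S2 : Ma) (a : Po) : Bool :=
  chk k 16 16 (fun i j => (mulE 5 D3 S2 i j ++ mulE 17 S1 D2 i j) ++ dia a i j)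
def h3 (k : Mo → Bool) (S2 : Ma) (a : Po) : Bool :=
  chk k 5 5 (fun i j => mulE 16 S2 D3 i j ++ dia a i j)

lemma cA0 : h0 kW SA0 pA = true := by decide +kernel
lemma cA1 : h1 kW SA0 SA1 pA = true := by decide +kernel
lemma cA2 : h2 kW SA1 SA2 pA = true := by decide +kernel
lemma cA3 : h3 kW SA2 pA = true := by decide +kernel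
lemma cB0 : h0 kW SB0 pB = true := by decide +kernel
lemma cB1 : h1 kW SB0 SB1 pB = true := by decide +kernel
lemma cB2 : h2 kW SB1 SB2 pB = true := by decide +kernel
lemma cC0 : h0 kW SC0 pC = true := by decide +kernel
lemma cC1 : h1 kW SC0 SC1 pC = true := by decide +kernel
lemma cY0 : h0 kJ KY0 pY = true := by decide +kernel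
lemma cY1 : h1 kJ KY0 KY1 pY = true := by decide +kernel
lemma cY2 : h2 kJ KY1 KY2 pY = true := by decide +kernel
lemma cY3 : h3 kJ KY2 pY = true := by decide +kernel
lemma cU0 : h0 kJ KU0 pU = true := by decide +kernel
lemma cU1 : h1 kJ KU0 KU1 pU = true := by decide +kernel
lemma cU2 : h2 kJ KU1 KU2 pU = true := by decide +kernel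
lemma cW1 : chk kJ 17 17 (fun i j => ((mulE 16 D2 KW1 i j ++ mulE 6 KW0 D1 i j)
    ++ mulE 2 Wp G i j) ++ dia pW i j) = true := by decide +kernel
lemma cP : chk kJ 1 17 (fun i j => mulE 6 P5 D1 i j ++ mulE 2 YU G i j) = true := by
  decide +kernel
lemma cQ : chk kJ 17 1 (fun i j => mulE 2 Wp UY i j ++ mulE 16 D2 Q i j) = true := by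
  decide +kernel

end Pool.Agent.PS
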