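import Pool.Agent.H.MP_b9e986_al.C

set_option autoImplicit false

namespace Pool.Agent.PS

open Polynomial

section col
variable {T : Type} [CommRing T]

def Col (I : Ideal T) (a : T) : Prop := ∀ r, a * r ∈ I → r ∈ I

lemma Col.pow {I : Ideal T} {a : T} (h : Col I a) (n : ℕ) : Col I (a ^ n) := by
  induction n with
  | zero => intro r hr; simpa using hr
  | succ n ih => intro r hr; rw [pow_succ, mul_assoc] at hr; exact h _ (ih _ hr)

lemma Col.C {I : Ideal T} {a : T} (h : Col I a) :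
    Col (I.map (Polynomial.C : T →+* T[X])) (Polynomial.C a) := by
  intro r hr
  rw [Ideal.mem_map_C_iff] at hr ⊢
  intro n
  have := hr n
  rw [coeff_C_mul] at this
  exact h _ this

lemma col_X (I : Ideal T) : Col (I.map (Polynomial.C : T →+* T[X])) X := by
  intro r hr
  rw [Ideal.mem_map_C_iff] at hr ⊢
  intro n
  have := hr (n + 1)
  rwa [coeff_X_mul] at this

lemma Reg3.of_col {a b c : T} (h1 : Col ⊥ a) (h2 : Col (Ideal.span {a}) b)
    (h3 : Col (Ideal.span {a, b}) c) : Reg3 a b c where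
  r1 r hr := (Submodule.mem_bot T).1 (h1 r ((Submodule.mem_bot T).2 hr))
  r2 r s h := by
    obtain ⟨t, ht⟩ := Ideal.mem_span_singleton'.1
      (h2 r (Ideal.mem_span_singleton'.2 ⟨s, by rw [h, mul_comm]⟩))
    exact ⟨t, by rw [← ht, mul_comm]⟩
  r3 r s t h := by
    obtain ⟨p, q, hpq⟩ := Ideal.mem_span_pair.1
      (h3 r (Ideal.mem_span_pair.2 ⟨s, t, by rw [h]; ring⟩))
    exact ⟨p, q, by rw [← hpq]; ring⟩
end col

section poly
variable (Λ : Type) [CommRing Λ]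

/-- Polynomials in three variables. -/
def PP : Type := Λ[X][X][X]

noncomputable instance : CommRing (PP Λ) := inferInstanceAs (CommRing Λ[X][X][X])

instance [IsNoetherianRing Λ] : IsNoetherianRing (PP Λ) :=
  inferInstanceAs (IsNoetherianRing Λ[X][X][X])

noncomputable def tθ : PP Λ := (C (C X) : Λ[X][X][X])
noncomputable def tu : PP Λ := (C X : Λ[X][X][X])
noncomputable def tv : PP Λ := (X : Λ[X][X][X])
noncomputable def cst : Λ →+* PP Λ :=
  ((C : Λ[X][X] →+* _).comp ((C : Λ[X] →+* _).comp (C : Λ →+* _)) : Λ →+* Λ[X][X][X])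

lemma reg3_aux (i j k : ℕ) :
    Reg3 ((C (C X) : Λ[X][X][X]) ^ i) ((C X : Λ[X][X][X]) ^ j) ((X : Λ[X][X][X]) ^ k) := by
  apply Reg3.of_col
  · have := ((col_X (⊥ : Ideal Λ)).C.C).pow i
    simpa only [Ideal.map_bot] using this
  · have := ((col_X (Ideal.span {(X : Λ[X]) ^ i})).C).pow j
    simpa only [Ideal.map_span, Set.image_singleton, map_pow] using this
  · have := (col_X (Ideal.span {(C X : Λ[X][X]) ^ i, X ^ j})).pow k
    simpa only [Ideal.map_span, Set.image_pair, map_pow] using this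

lemma reg3_PP (i j k : ℕ) : Reg3 (tθ Λ ^ i) (tu Λ ^ j) (tv Λ ^ k) := reg3_aux Λ i j k

variable {Λ} {S : Type} [CommRing S]

noncomputable def liftP0 (φ : Λ →+* S) (t u v : S) : Λ[X][X][X] →+* S :=
  eval₂RingHom (eval₂RingHom (eval₂RingHom φ t) u) v

noncomputable def liftP (φ : Λ →+* S) (t u v : S) : PP Λ →+* S := liftP0 φ t u v

@[simp] lemma liftP_θ (φ : Λ →+* S) (t u v : S) : liftP φ t u v (tθ Λ) = t := by
  change liftP0 φ t u v (C (C X)) = t
  simp [liftP0]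
@[simp] lemma liftP_u (φ : Λ →+* S) (t u v : S) : liftP φ t u v (tu Λ) = u := by
  change liftP0 φ t u v (C X) = u
  simp [liftP0]
@[simp] lemma liftP_v (φ : Λ →+* S) (t u v : S) : liftP φ t u v (tv Λ) = v := by
  change liftP0 φ t u v X = v
  simp [liftP0]
@[simp] lemma liftP_c (φ : Λ →+* S) (t u v : S) (l : Λ) :
    liftP φ t u v (cst Λ l) = φ l := by
  change liftP0 φ t u v (C (C (C l))) = φ l
  simp [liftP0]

lemma PP_ext {f g : PP Λ →+* S} (h0 : ∀ l, f (cst Λ l) = g (cst Λ l))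
    (h1 : f (tθ Λ) = g (tθ Λ)) (h2 : f (tu Λ) = g (tu Λ)) (h3 : f (tv Λ) = g (tv Λ)) : f = g := by
  refine Polynomial.ringHom_ext' (f := f) (g := g)
    (Polynomial.ringHom_ext' (Polynomial.ringHom_ext' ?_ h1) h2) h3
  exact RingHom.ext h0

lemma poly_surj {A : Type} [CommRing A] (f : A →+* S[X]) (hC : ∀ s, ∃ a, f a = C s)
    (hX : ∃ a, f a = X) : Function.Surjective f := by
  intro p
  induction p using Polynomial.induction_on with
  | C s => exact hC s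
  | add p q hp hq =>
    obtain ⟨a, rfl⟩ := hp
    obtain ⟨b, rfl⟩ := hq
    exact ⟨a + b, map_add _ _ _⟩
  | monomial n s h =>
    obtain ⟨a, ha⟩ := h
    obtain ⟨b, hb⟩ := hX
    exact ⟨a * b, by rw [map_mul, ha, hb, pow_succ, mul_assoc]⟩
end poly

section quad
variable (Λ : Type) [CommRing Λ]

/-- The quadric cone `xy = uv`, as a free module of rank two over `Λ[x + y, u, v]`. -/
def BB : Type := QuadraticAlgebra (PP Λ) (-(tu Λ * tv Λ)) (tθ Λ)

noncomputable instance : CommRing (BB Λ) :=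
  inferInstanceAs (CommRing (QuadraticAlgebra (PP Λ) (-(tu Λ * tv Λ)) (tθ Λ)))

instance [IsNoetherianRing Λ] : IsNoetherianRing (BB Λ) :=
  Algebra.FiniteType.isNoetherianRing (PP Λ) (QuadraticAlgebra (PP Λ) (-(tu Λ * tv Λ)) (tθ Λ))

noncomputable def ιB : PP Λ →+* BB Λ :=
  algebraMap (PP Λ) (QuadraticAlgebra (PP Λ) (-(tu Λ * tv Λ)) (tθ Λ))

noncomputable def ωB : BB Λ := QuadraticAlgebra.omega

def BB.re {Λ : Type} [CommRing Λ] (z : BB Λ) : PP Λ := QuadraticAlgebra.re z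
def BB.im {Λ : Type} [CommRing Λ] (z : BB Λ) : PP Λ := QuadraticAlgebra.im z

variable {Λ}

lemma BB.ext' {z w : BB Λ} (h1 : z.re = w.re) (h2 : z.im = w.im) : z = w :=
  QuadraticAlgebra.ext h1 h2

lemma re_add (z w : BB Λ) : (z + w).re = z.re + w.re := rfl
lemma im_add (z w : BB Λ) : (z + w).im = z.im + w.im := rfl
lemma re_mul (z w : BB Λ) : (z * w).re = z.re * w.re + (-(tu Λ * tv Λ)) * z.im * w.im := rfl
lemma im_mul (z w : BB Λ) :
    (z * w).im = z.re * w.im + z.im * w.re + tθ Λ * z.im * w.im := rfl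
lemma re_ι (a : PP Λ) : (ιB Λ a).re = a := rfl
lemma im_ι (a : PP Λ) : (ιB Λ a).im = 0 := rfl
lemma re_ω : (ωB Λ).re = 0 := rfl
lemma im_ω : (ωB Λ).im = 1 := rfl
lemma re_ιmul (a : PP Λ) (z : BB Λ) : (ιB Λ a * z).re = a * z.re := by
  rw [re_mul, re_ι, im_ι]; ring
lemma im_ιmul (a : PP Λ) (z : BB Λ) : (ιB Λ a * z).im = a * z.im := by
  rw [im_mul, re_ι, im_ι]; ring
lemma BB.decomp (z : BB Λ) : z = ιB Λ z.re + ιB Λ z.im * ωB Λ := by
  apply BB.ext'
  · rw [re_add, re_ιmul, re_ι, re_ω]; ring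
  · rw [im_add, im_ιmul, im_ι, im_ω]; ring
lemma re_mk (a b : PP Λ) : (ιB Λ a + ιB Λ b * ωB Λ).re = a := by
  rw [re_add, re_ιmul, re_ι, re_ω]; ring
lemma im_mk (a b : PP Λ) : (ιB Λ a + ιB Λ b * ωB Λ).im = b := by
  rw [im_add, im_ιmul, im_ι, im_ω]; ring

lemma ω_sq : ωB Λ * ωB Λ = ιB Λ (-(tu Λ * tv Λ)) + ιB Λ (tθ Λ) * ωB Λ := by
  apply BB.ext'
  · rw [re_mk, re_mul, re_ω, im_ω]; ring
  · rw [im_mk, im_mul, re_ω, im_ω]; ring

lemma Reg3.quad {a b c : PP Λ} (H : Reg3 a b c) : Reg3 (ιB Λ a) (ιB Λ b) (ιB Λ c) where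
  r1 r hr := by
    have h1 := congrArg BB.re hr
    have h2 := congrArg BB.im hr
    rw [re_ιmul] at h1
    rw [im_ιmul] at h2
    exact BB.ext' (H.r1 _ h1) (H.r1 _ h2)
  r2 r s hr := by
    have h1 := congrArg BB.re hr
    have h2 := congrArg BB.im hr
    rw [re_ιmul, re_ιmul] at h1
    rw [im_ιmul, im_ιmul] at h2
    obtain ⟨t1, e1⟩ := H.r2 _ _ h1
    obtain ⟨t2, e2⟩ := H.r2 _ _ h2
    refine ⟨ιB Λ t1 + ιB Λ t2 * ωB Λ, BB.ext' ?_ ?_⟩
    · rw [re_ιmul, re_mk, e1]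
    · rw [im_ιmul, im_mk, e2]
  r3 r s t hr := by
    have h1 := congrArg BB.re hr
    have h2 := congrArg BB.im hr
    rw [re_add, re_ιmul, re_ιmul, re_ιmul] at h1
    rw [im_add, im_ιmul, im_ιmul, im_ιmul] at h2
    obtain ⟨p1, q1, e1⟩ := H.r3 _ _ _ h1
    obtain ⟨p2, q2, e2⟩ := H.r3 _ _ _ h2
    refine ⟨ιB Λ p1 + ιB Λ p2 * ωB Λ, ιB Λ q1 + ιB Λ q2 * ωB Λ, BB.ext' ?_ ?_⟩
    · rw [re_add, re_ιmul, re_ιmul, re_mk, re_mk, e1]
    · rw [im_add, im_ιmul, im_ιmul, im_mk, im_mk, e2]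

noncomputable def gB : Vars (BB Λ) :=
  ⟨ωB Λ, ιB Λ (tθ Λ) - ωB Λ, ιB Λ (tu Λ), ιB Λ (tv Λ), 0⟩

lemma gB_rel (h2 : (2 : Λ) = 0) : Rel (gB : Vars (BB Λ)) where
  two := by
    have := map_ofNat ((ιB Λ).comp (cst Λ)) 2
    rw [← this, h2, map_zero]
  xy := by
    have := ω_sq (Λ := Λ)
    simp only [gB, map_neg, map_mul] at this ⊢
    linear_combination -this

lemma gB_reg : Reg3 (((gB : Vars (BB Λ)).x + gB.y) ^ 3) (gB.u ^ 2) (gB.v ^ 3) := by
  have := (reg3_PP Λ 3 2 3).quad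
  simpa [gB] using this

variable {S : Type} [CommRing S]

noncomputable def liftB (φ : Λ →+* S) (x y u v : S) (h : x * y = u * v) : BB Λ →+* S where
  toFun z := liftP φ (x + y) u v z.re + liftP φ (x + y) u v z.im * x
  map_one' := by
    have h1 : (1 : BB Λ).re = 1 := rfl
    have h2 : (1 : BB Λ).im = 0 := rfl
    simp [h1, h2]
  map_zero' := by
    have h1 : (0 : BB Λ).re = 0 := rfl
    have h2 : (0 : BB Λ).im = 0 := rfl
    simp [h1, h2]
  map_add' z w := by simp only [re_add, im_add, map_add]; ring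
  map_mul' z w := by
    simp only [re_mul, im_mul, map_add, map_mul, map_neg, liftP_θ, liftP_u, liftP_v]
    linear_combination (liftP φ (x + y) u v z.im * liftP φ (x + y) u v w.im) * h

lemma liftB_ι (φ : Λ →+* S) (x y u v : S) (h : x * y = u * v) (a : PP Λ) :
    liftB φ x y u v h (ιB Λ a) = liftP φ (x + y) u v a := by
  change liftP φ (x + y) u v (ιB Λ a).re + liftP φ (x + y) u v (ιB Λ a).im * x = _
  simp [re_ι, im_ι]

lemma liftB_ω (φ : Λ →+* S) (x y u v : S) (h : x * y = u * v) :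
    liftB φ x y u v h (ωB Λ) = x := by
  change liftP φ (x + y) u v (ωB Λ).re + liftP φ (x + y) u v (ωB Λ).im * x = _
  simp [re_ω, im_ω]

lemma gB_map (φ : Λ →+* S) (x y u v : S) (h : x * y = u * v) :
    (gB : Vars (BB Λ)).map (liftB φ x y u v h) = ⟨x, y, u, v, 0⟩ := by
  simp [gB, Vars.map, liftB_ι, liftB_ω]

/-- Constants. -/
noncomputable def cB (Λ : Type) [CommRing Λ] : Λ →+* BB Λ :=
  (ιB Λ).comp (cst Λ)

lemma liftB_c (φ : Λ →+* S) (x y u v : S) (h : x * y = u * v) (l : Λ) :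
    liftB φ x y u v h (cB Λ l) = φ l := by
  simp [cB, liftB_ι]

lemma BB_ext {f g : BB Λ →+* S} (h0 : ∀ l, f (cB Λ l) = g (cB Λ l))
    (hx : f gB.x = g gB.x) (hy : f gB.y = g gB.y) (hu : f gB.u = g gB.u)
    (hv : f gB.v = g gB.v) : f = g := by
  have e : f.comp (ιB Λ) = g.comp (ιB Λ) := by
    refine PP_ext h0 ?_ hu hv
    have : ιB Λ (tθ Λ) = gB.x + gB.y := by simp [gB]
    simp only [RingHom.comp_apply, this, map_add, hx, hy]
  have e' : ∀ a, f (ιB Λ a) = g (ιB Λ a) := fun a => RingHom.congr_fun e a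
  have hω : f (ωB Λ) = g (ωB Λ) := hx
  ext z
  rw [z.decomp, map_add, map_add, map_mul, map_mul, e', e', hω]
end quad

end Pool.Agent.PS
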