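import Pool.Agent.H.MP_b9e986_al.E

set_option autoImplicit false

namespace Pool.Agent.PS

open Polynomial

abbrev kk := ZMod 2
abbrev EE := MvPolynomial (Fin 5) kk

/-- Coefficient ring data: either the field with two elements or a polynomial ring over it. -/
structure Base (Λ : Type) [CommRing Λ] where
  ε : Λ →+* kk
  s : kk →+* Λ
  z : Λ
  hz : ε z = 0
  dec : ∀ l, ∃ μ, l = s (ε l) + z * μ
  lam : Λ →+* EE
  hlam : ∀ l, MvPolynomial.constantCoeff (lam l) = ε l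

variable {Λ : Type} [CommRing Λ] (β : Base Λ)

include β in
lemma Base.two : (2 : Λ) = 0 := by
  rw [← map_ofNat β.s 2, show (2 : kk) = 0 from rfl, map_zero]

noncomputable def Base.ρ : BB Λ →+* kk[X][X] :=
  liftB ((C : kk[X] →+* _).comp ((C : kk →+* _).comp β.ε)) 0 (C X) X 0 (by simp)

lemma Base.ρ_c (l : Λ) : β.ρ (cB Λ l) = C (C (β.ε l)) := liftB_c _ _ _ _ _ _ _

lemma Base.ρ_g : (gB : Vars (BB Λ)).map β.ρ = ⟨0, C X, X, 0, 0⟩ := gB_map _ _ _ _ _ _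

lemma Base.ρ_x : β.ρ gB.x = 0 := congrArg Vars.x β.ρ_g
lemma Base.ρ_y : β.ρ gB.y = C X := congrArg Vars.y β.ρ_g
lemma Base.ρ_u : β.ρ gB.u = X := congrArg Vars.u β.ρ_g
lemma Base.ρ_v : β.ρ gB.v = 0 := congrArg Vars.v β.ρ_g

lemma Base.ρ_surj : Function.Surjective β.ρ := by
  refine poly_surj _ (fun s => ?_) ⟨_, β.ρ_u⟩
  induction s using Polynomial.induction_on with
  | C c =>
    obtain ⟨l, rfl⟩ := ZMod.ringHom_surjective β.ε c
    exact ⟨_, β.ρ_c l⟩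
  | add p q hp hq =>
    obtain ⟨a, ha⟩ := hp
    obtain ⟨b, hb⟩ := hq
    exact ⟨a + b, by rw [map_add, ha, hb, map_add]⟩
  | monomial n s h =>
    obtain ⟨a, ha⟩ := h
    exact ⟨a * gB.y, by rw [map_mul, ha, β.ρ_y, ← map_mul, pow_succ, mul_assoc]⟩

noncomputable def Base.I : Ideal (BB Λ)[X] :=
  RingHom.ker (evalRingHom 0) ⊓ RingHom.ker (mapRingHom β.ρ)

/-- The glued ring before localizing. -/
def Base.R0 : Type := (BB Λ)[X] ⧸ β.I

noncomputable instance : CommRing β.R0 := inferInstanceAs (CommRing ((BB Λ)[X] ⧸ β.I))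

instance [IsNoetherianRing Λ] : IsNoetherianRing β.R0 :=
  inferInstanceAs (IsNoetherianRing ((BB Λ)[X] ⧸ β.I))

noncomputable def Base.mk0 : (BB Λ)[X] →+* β.R0 := Ideal.Quotient.mk β.I

lemma Base.mk0_surj : Function.Surjective β.mk0 := Ideal.Quotient.mk_surjective

lemma Base.mk0_eq_zero (f : (BB Λ)[X]) :
    β.mk0 f = 0 ↔ f.eval 0 = 0 ∧ f.map β.ρ = 0 :=
  Ideal.Quotient.eq_zero_iff_mem (I := β.I)

noncomputable def Base.π2 : β.R0 →+* BB Λ :=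
  Ideal.Quotient.lift β.I (evalRingHom 0) (fun _ h => h.1)

noncomputable def Base.π1' : β.R0 →+* kk[X][X][X] :=
  Ideal.Quotient.lift β.I (mapRingHom β.ρ) (fun _ h => h.2)

noncomputable def Base.π1 : β.R0 →+* PP kk := β.π1'

lemma Base.π2_mk (f : (BB Λ)[X]) : β.π2 (β.mk0 f) = f.eval 0 := rfl
lemma Base.π1'_mk (f : (BB Λ)[X]) : β.π1' (β.mk0 f) = f.map β.ρ := rfl

noncomputable def Base.g0 : Vars β.R0 :=
  ⟨β.mk0 (C gB.x), β.mk0 (C gB.y), β.mk0 (C gB.u), β.mk0 (C gB.v), β.mk0 X⟩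

noncomputable def Base.c0 : Λ →+* β.R0 := β.mk0.comp ((C : BB Λ →+* _).comp (cB Λ))

noncomputable def gT : Vars (PP kk) := ⟨0, tθ kk, tu kk, 0, tv kk⟩

lemma Base.g0_π2 : β.g0.map β.π2 = gB := by
  simp only [Base.g0, Vars.map, π2_mk, eval_C, eval_X]
  rfl

lemma Base.g0_π1 : β.g0.map β.π1 = gT := by
  have h1 : β.π1' β.g0.x = 0 := by simp [Base.g0, π1'_mk, ρ_x]
  have h2 : β.π1' β.g0.y = C (C X) := by simp [Base.g0, π1'_mk, ρ_y]
  have h3 : β.π1' β.g0.u = C X := by simp [Base.g0, π1'_mk, ρ_u]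
  have h4 : β.π1' β.g0.v = 0 := by simp [Base.g0, π1'_mk, ρ_v]
  have h5 : β.π1' β.g0.w = X := by simp [Base.g0, π1'_mk]
  exact (Vars.mk.injEq ..).mpr ⟨h1, h2, h3, h4, h5⟩

lemma Base.π2_c (l : Λ) : β.π2 (β.c0 l) = cB Λ l := by
  simp [Base.c0, π2_mk]

lemma Base.π1_c (l : Λ) : β.π1 (β.c0 l) = cst kk (β.ε l) := by
  change β.π1' (β.c0 l) = C (C (C (β.ε l)))
  simp [Base.c0, π1'_mk, ρ_c]

lemma Base.π2_surj : Function.Surjective β.π2 := fun b => ⟨β.mk0 (C b), by simp [π2_mk]⟩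

lemma Base.π1_surj : Function.Surjective β.π1 := by
  intro t
  obtain ⟨f, hf⟩ := Polynomial.map_surjective β.ρ β.ρ_surj t
  exact ⟨β.mk0 f, hf⟩

lemma Base.ker_π2 : RingHom.ker β.π2 = Ideal.span {β.g0.w} := by
  apply le_antisymm
  · intro r hr
    obtain ⟨f, rfl⟩ := β.mk0_surj r
    rw [RingHom.mem_ker, π2_mk, ← coeff_zero_eq_eval_zero, ← X_dvd_iff] at hr
    obtain ⟨h, rfl⟩ := hr
    rw [map_mul]
    exact Ideal.mul_mem_right _ _ (Ideal.mem_span_singleton_self _)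
  · rw [Ideal.span_le, Set.singleton_subset_iff]
    exact congrArg Vars.w β.g0_π2

lemma Base.w_mul (j : β.R0) (hj : j ∈ RingHom.ker β.π1) : β.g0.w * j = 0 := by
  obtain ⟨f, rfl⟩ := β.mk0_surj j
  have h : f.map β.ρ = 0 := hj
  change β.mk0 X * β.mk0 f = 0
  rw [← map_mul, mk0_eq_zero]
  simp [h]

lemma Base.ann_w (r : β.R0) (hr : β.g0.w * r = 0) : r ∈ RingHom.ker β.π1 := by
  obtain ⟨f, rfl⟩ := β.mk0_surj r
  change β.mk0 X * β.mk0 f = 0 at hr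
  rw [← map_mul, mk0_eq_zero, Polynomial.map_mul, map_X] at hr
  exact (mul_eq_zero.1 hr.2).resolve_left X_ne_zero

lemma Base.g0_rel : Rel β.g0 where
  two := by rw [← map_ofNat β.c0 2, β.two, map_zero]
  xy := by
    simp only [Base.g0, ← map_mul, (gB_rel β.two).xy]

lemma Base.wx : β.g0.w * β.g0.x = 0 := β.w_mul _ (congrArg Vars.x β.g0_π1)
lemma Base.wv : β.g0.w * β.g0.v = 0 := β.w_mul _ (congrArg Vars.v β.g0_π1)
lemma Base.wz : β.g0.w * β.c0 β.z = 0 :=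
  β.w_mul _ (by rw [RingHom.mem_ker, π1_c, β.hz, map_zero])

lemma Base.exw0 (n : ℕ) : ExM (Ideal.span {β.g0.w}) (dd β.g0 n) (dd β.g0 (n + 1)) := by
  rw [← β.ker_π2]
  apply ExM.of_hom _ β.π2_surj
  rw [← dd_map, ← dd_map, g0_π2]
  exact exW (gB_rel β.two) rfl gB_reg n

lemma Base.exJ0 (n : ℕ) : ExM (RingHom.ker β.π1) (dd β.g0 n) (dd β.g0 (n + 1)) := by
  apply ExM.of_hom _ β.π1_surj
  rw [← dd_map, ← dd_map]
  have hr := β.g0_rel.map β.π1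
  rw [g0_π1] at hr ⊢
  refine exJ hr rfl rfl ?_ n
  simpa [gT] using reg3_PP kk 1 1 1

lemma Base.ex00 (n : ℕ) : ExM ⊥ (dd β.g0 n) (dd β.g0 (n + 1)) :=
  ExM.glue β.w_mul β.ann_w (dd_mul β.g0_rel β.wx β.wv n) (β.exw0 n) (β.exJ0 n)

lemma Base.R0_ext {S : Type} [CommRing S] {f g : β.R0 →+* S} (h0 : ∀ l, f (β.c0 l) = g (β.c0 l))
    (h : β.g0.map f = β.g0.map g) : f = g := by
  have : f.comp β.mk0 = g.comp β.mk0 :=
    Polynomial.ringHom_ext' (BB_ext h0 (congrArg Vars.x h) (congrArg Vars.y h)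
      (congrArg Vars.u h) (congrArg Vars.v h)) (congrArg Vars.w h)
  ext r
  obtain ⟨a, rfl⟩ := β.mk0_surj r
  exact RingHom.congr_fun this a

lemma Vars.map_comp {A B D : Type} [CommRing A] [CommRing B] [CommRing D] (g : Vars A)
    (f : A →+* B) (h : B →+* D) : g.map (h.comp f) = (g.map f).map h := rfl

open MvPolynomial in
noncomputable def Base.ψ0 : β.R0 →+* EE :=
  (liftB β.lam (MvPolynomial.X 0 * MvPolynomial.X 2) (MvPolynomial.X 1 * MvPolynomial.X 3)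
    (MvPolynomial.X 0 * MvPolynomial.X 3) (MvPolynomial.X 1 * MvPolynomial.X 2) (by ring)).comp β.π2

lemma Base.g0_ψ0 : β.g0.map β.ψ0 = ⟨MvPolynomial.X 0 * MvPolynomial.X 2,
    MvPolynomial.X 1 * MvPolynomial.X 3, MvPolynomial.X 0 * MvPolynomial.X 3,
    MvPolynomial.X 1 * MvPolynomial.X 2, 0⟩ := by
  rw [Base.ψ0, Vars.map_comp, g0_π2, gB_map]

lemma Base.ψ0_c (l : Λ) : β.ψ0 (β.c0 l) = β.lam l := by
  rw [Base.ψ0, RingHom.comp_apply, π2_c, liftB_c]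

noncomputable def Base.ε0 : β.R0 →+* kk := MvPolynomial.constantCoeff.comp β.ψ0

lemma Base.g0_ε0 : β.g0.map β.ε0 = ⟨0, 0, 0, 0, 0⟩ := by
  rw [Base.ε0, Vars.map_comp, g0_ψ0]
  simp [Vars.map]

lemma Base.ε0_c (l : Λ) : β.ε0 (β.c0 l) = β.ε l := by
  rw [Base.ε0, RingHom.comp_apply, ψ0_c, β.hlam]

noncomputable def Base.m0 : Ideal β.R0 := RingHom.ker β.ε0

instance : β.m0.IsPrime := RingHom.ker_isPrime _

lemma Base.gen0 (q : Ideal β.R0) (hx : β.g0.x ∈ q) (hy : β.g0.y ∈ q) (hu : β.g0.u ∈ q)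
    (hv : β.g0.v ∈ q) (hw : β.g0.w ∈ q) (hz : β.c0 β.z ∈ q) : β.m0 ≤ q := by
  have e : Ideal.Quotient.mk q = ((Ideal.Quotient.mk q).comp (β.c0.comp β.s)).comp β.ε0 := by
    apply β.R0_ext
    · intro l
      obtain ⟨μ, hμ⟩ := β.dec l
      rw [RingHom.comp_apply, ε0_c]
      conv_lhs => rw [hμ]
      rw [map_add, map_mul, map_add, map_mul, Ideal.Quotient.eq_zero_iff_mem.2 hz]
      simp
    · rw [Vars.map_comp, g0_ε0]
      simp only [Vars.map, map_zero, Ideal.Quotient.eq_zero_iff_mem.2 hx,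
        Ideal.Quotient.eq_zero_iff_mem.2 hy, Ideal.Quotient.eq_zero_iff_mem.2 hu,
        Ideal.Quotient.eq_zero_iff_mem.2 hv, Ideal.Quotient.eq_zero_iff_mem.2 hw]
  intro r hr
  have hr' : β.ε0 r = 0 := hr
  rw [← Ideal.Quotient.eq_zero_iff_mem, e, RingHom.comp_apply, hr', map_zero]

noncomputable def Base.πp : β.R0 →+* kk[X] := (liftP C 0 0 X).comp β.π1

lemma Base.g0_πp : β.g0.map β.πp = ⟨0, 0, 0, 0, X⟩ := by
  rw [Base.πp, Vars.map_comp, g0_π1]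
  simp [Vars.map, gT]

lemma Base.p_le : RingHom.ker β.πp ≤ β.m0 := by
  have e : β.ε0 = (evalRingHom 0).comp β.πp := by
    apply β.R0_ext
    · intro l
      rw [ε0_c, RingHom.comp_apply, Base.πp, RingHom.comp_apply, π1_c]
      simp
    · rw [Vars.map_comp, g0_ε0, g0_πp]
      simp [Vars.map]
  intro r hr
  have hr' : β.πp r = 0 := hr
  rw [Base.m0, RingHom.mem_ker, e, RingHom.comp_apply, hr', map_zero]

noncomputable def κ (i : Fin 5) : EE →+* EE :=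
  MvPolynomial.eval₂Hom MvPolynomial.C fun j => if j = i then 0 else MvPolynomial.X j

lemma cc_κ (i : Fin 5) (f : EE) :
    MvPolynomial.constantCoeff (κ i f) = MvPolynomial.constantCoeff f := by
  have : (MvPolynomial.constantCoeff : EE →+* kk).comp (κ i) = MvPolynomial.constantCoeff := by
    apply MvPolynomial.ringHom_ext
    · intro r; simp [κ]
    · intro j
      by_cases h : j = i <;> simp [κ, h]
  exact RingHom.congr_fun this f

noncomputable def Base.ψ : ℕ → (β.R0 →+* EE)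
  | 0 => β.ψ0
  | 1 => (κ 4).comp β.ψ0
  | 2 => (κ 2).comp ((κ 4).comp β.ψ0)
  | 3 => (κ 0).comp ((κ 2).comp ((κ 4).comp β.ψ0))
  | _ + 4 => (κ 1).comp ((κ 0).comp ((κ 2).comp ((κ 4).comp β.ψ0)))

lemma Base.ψ_le : ∀ n, RingHom.ker (β.ψ n) ≤ β.m0
  | 0 => fun r hr => by
    have h : β.ψ0 r = 0 := hr
    change MvPolynomial.constantCoeff (β.ψ0 r) = 0
    rw [h, map_zero]
  | 1 => fun r hr => by
    have h : κ 4 (β.ψ0 r) = 0 := hr
    change MvPolynomial.constantCoeff (β.ψ0 r) = 0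
    rw [← cc_κ 4, h, map_zero]
  | 2 => fun r hr => by
    have h : κ 2 (κ 4 (β.ψ0 r)) = 0 := hr
    change MvPolynomial.constantCoeff (β.ψ0 r) = 0
    rw [← cc_κ 4, ← cc_κ 2, h, map_zero]
  | 3 => fun r hr => by
    have h : κ 0 (κ 2 (κ 4 (β.ψ0 r))) = 0 := hr
    change MvPolynomial.constantCoeff (β.ψ0 r) = 0
    rw [← cc_κ 4, ← cc_κ 2, ← cc_κ 0, h, map_zero]
  | _ + 4 => fun r hr => by
    have h : κ 1 (κ 0 (κ 2 (κ 4 (β.ψ0 r)))) = 0 := hr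
    change MvPolynomial.constantCoeff (β.ψ0 r) = 0
    rw [← cc_κ 4, ← cc_κ 2, ← cc_κ 0, ← cc_κ 1, h, map_zero]

lemma ker_lt {A : Type} [CommRing A] (f : A →+* EE) (k : EE →+* EE) (a : A) (h1 : f a ≠ 0)
    (h2 : k (f a) = 0) : RingHom.ker f < RingHom.ker (k.comp f) := by
  refine lt_of_le_of_ne (fun r hr => ?_) (fun e => h1 ?_)
  · have : f r = 0 := hr
    rw [RingHom.mem_ker, RingHom.comp_apply, this, map_zero]
  · have : a ∈ RingHom.ker (k.comp f) := h2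
    rw [← e] at this
    exact this

lemma Base.ψx : β.ψ0 β.g0.x = MvPolynomial.X 0 * MvPolynomial.X 2 := congrArg Vars.x β.g0_ψ0
lemma Base.ψy : β.ψ0 β.g0.y = MvPolynomial.X 1 * MvPolynomial.X 3 := congrArg Vars.y β.g0_ψ0
lemma Base.ψu : β.ψ0 β.g0.u = MvPolynomial.X 0 * MvPolynomial.X 3 := congrArg Vars.u β.g0_ψ0
lemma Base.ψw : β.ψ0 β.g0.w = 0 := congrArg Vars.w β.g0_ψ0

lemma Base.lt12 : RingHom.ker (β.ψ 1) < RingHom.ker (β.ψ 2) :=
  ker_lt _ _ β.g0.x (by simp [Base.ψ, ψx, κ]) (by simp [Base.ψ, ψx, κ])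
lemma Base.lt23 : RingHom.ker (β.ψ 2) < RingHom.ker (β.ψ 3) :=
  ker_lt _ _ β.g0.u (by simp [Base.ψ, ψu, κ]) (by simp [Base.ψ, ψu, κ])
lemma Base.lt34 : RingHom.ker (β.ψ 3) < RingHom.ker (β.ψ 4) :=
  ker_lt _ _ β.g0.y (by simp [Base.ψ, ψy, κ]) (by simp [Base.ψ, ψy, κ])
lemma Base.lt01 (h1 : β.lam β.z ≠ 0) (h2 : κ 4 (β.lam β.z) = 0) :
    RingHom.ker (β.ψ 0) < RingHom.ker (β.ψ 1) :=
  ker_lt _ _ (β.c0 β.z) (by simpa [Base.ψ, ψ0_c] using h1) (by simpa [Base.ψ, ψ0_c] using h2)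

lemma Base.ψ_w : ∀ n, β.g0.w ∈ RingHom.ker (β.ψ n)
  | 0 => β.ψw
  | 1 => by simp [Base.ψ, ψw]
  | 2 => by simp [Base.ψ, ψw]
  | 3 => by simp [Base.ψ, ψw]
  | _ + 4 => by simp [Base.ψ, ψw]

end Pool.Agent.PS
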