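import Pool.Agent.H.MP_b9e986_al.F

set_option autoImplicit false

namespace Pool.Agent.PS

open IsLocalRing

lemma chain_le {R : Type} [CommRing R] (I : Ideal R) (n : ℕ) (q : ℕ → Ideal R)
    (hp : ∀ i, (q i).IsPrime) (hI : ∀ i, I ≤ q i) (hs : ∀ i < n, q i < q (i + 1)) :
    (n : WithBot ℕ∞) ≤ ringKrullDim (R ⧸ I) := by
  rw [ringKrullDim_quotient]
  let f : Fin (n + 1) → PrimeSpectrum.zeroLocus (R := R) I := fun i => ⟨⟨q i, hp i⟩, hI i⟩
  have hf : StrictMono f := Fin.strictMono_iff_lt_succ.2 fun i => hs i i.2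
  exact Order.LTSeries.length_le_krullDim (LTSeries.mk n f hf)

/-- Everything the homological argument uses about the local ring. -/
structure Setup (R : Type) [CommRing R] [IsLocalRing R] where
  g : Vars R
  z : R
  rel : Rel g
  wx : g.w * g.x = 0
  wv : g.w * g.v = 0
  wz : g.w * z = 0
  ex0 : ∀ n, ExM ⊥ (dd g n) (dd g (n + 1))
  exw : ∀ n, ExM (Ideal.span {g.w}) (dd g n) (dd g (n + 1))
  p : Ideal R
  pp : p.IsPrime
  yp : g.y ∈ p
  up : g.u ∈ p
  wp : g.w ∉ p
  xm : g.x ∈ maximalIdeal R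
  ym : g.y ∈ maximalIdeal R
  um : g.u ∈ maximalIdeal R
  vm : g.v ∈ maximalIdeal R
  wm : g.w ∈ maximalIdeal R
  zm : z ∈ maximalIdeal R
  gen : ∀ q : Ideal R, g.x ∈ q → g.y ∈ q → g.u ∈ q → g.v ∈ q → g.w ∈ q → z ∈ q →
    maximalIdeal R ≤ q
  dimW : (3 : WithBot ℕ∞) ≤ ringKrullDim (R ⧸ Ideal.span {g.w})

variable {Λ : Type} [CommRing Λ] (β : Base Λ)

abbrev Base.RR : Type := Localization.AtPrime β.m0

noncomputable abbrev Base.alg : β.R0 →+* β.RR := algebraMap β.R0 β.RR

lemma Base.disj {q : Ideal β.R0} (h : q ≤ β.m0) : Disjoint (β.m0.primeCompl : Set β.R0) q :=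
  Set.disjoint_left.2 fun _ h1 h2 => h1 (h h2)

lemma Base.map_prime {q : Ideal β.R0} (hq : q.IsPrime) (h : q ≤ β.m0) :
    (q.map β.alg).IsPrime :=
  IsLocalization.isPrime_of_isPrime_disjoint _ _ q hq (β.disj h)

lemma Base.mem_map {q : Ideal β.R0} (hq : q.IsPrime) (h : q ≤ β.m0) (r : β.R0) :
    β.alg r ∈ q.map β.alg ↔ r ∈ q := by
  have := IsLocalization.under_map_of_isPrime_disjoint β.m0.primeCompl β.RR hq (β.disj h)
  rw [← Ideal.mem_comap]
  exact SetLike.ext_iff.1 this r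

lemma Base.map_lt {q q' : Ideal β.R0} (hq : q.IsPrime) (h : q ≤ β.m0) (hlt : q < q') :
    q.map β.alg < q'.map β.alg := by
  refine lt_of_le_of_ne (Ideal.map_mono hlt.le) fun e => hlt.not_ge fun r hr => ?_
  rw [← β.mem_map hq h, e]
  exact Ideal.mem_map_of_mem _ hr

lemma Base.mem_max {r : β.R0} (h : β.ε0 r = 0) : β.alg r ∈ maximalIdeal β.RR :=
  (IsLocalization.AtPrime.to_map_mem_maximal_iff β.RR β.m0 r).2 h

noncomputable def Base.Q (n : ℕ) : Ideal β.RR := (RingHom.ker (β.ψ n)).map β.alg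

lemma Base.Q_prime (n : ℕ) : (β.Q n).IsPrime := β.map_prime (RingHom.ker_isPrime _) (β.ψ_le n)

lemma Base.Q_w (n : ℕ) : Ideal.span {β.alg β.g0.w} ≤ β.Q n := by
  rw [Ideal.span_le, Set.singleton_subset_iff]
  exact Ideal.mem_map_of_mem _ (β.ψ_w n)

lemma Base.Q_lt : ∀ i < 3, β.Q (i + 1) < β.Q (i + 1 + 1)
  | 0, _ => β.map_lt (RingHom.ker_isPrime _) (β.ψ_le _) β.lt12
  | 1, _ => β.map_lt (RingHom.ker_isPrime _) (β.ψ_le _) β.lt23
  | 2, _ => β.map_lt (RingHom.ker_isPrime _) (β.ψ_le _) β.lt34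
  | n + 3, h => absurd h (by omega)

noncomputable def Base.setup : Setup β.RR where
  g := β.g0.map β.alg
  z := β.alg (β.c0 β.z)
  rel := β.g0_rel.map _
  wx := by simp only [Vars.map]; rw [← map_mul, β.wx, map_zero]
  wv := by simp only [Vars.map]; rw [← map_mul, β.wv, map_zero]
  wz := by simp only [Vars.map]; rw [← map_mul, β.wz, map_zero]
  ex0 n := by
    have := (β.ex00 n).loc (S := β.RR) β.m0.primeCompl
    rwa [Ideal.map_bot, ← dd_map, ← dd_map] at this
  exw n := by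
    have := (β.exw0 n).loc (S := β.RR) β.m0.primeCompl
    rwa [Ideal.map_span, Set.image_singleton, ← dd_map, ← dd_map] at this
  p := (RingHom.ker β.πp).map β.alg
  pp := β.map_prime (RingHom.ker_isPrime _) β.p_le
  yp := Ideal.mem_map_of_mem _ (congrArg Vars.y β.g0_πp)
  up := Ideal.mem_map_of_mem _ (congrArg Vars.u β.g0_πp)
  wp := fun h => by
    have h1 := (β.mem_map (RingHom.ker_isPrime _) β.p_le _).1 h
    have h2 : β.πp β.g0.w = Polynomial.X := congrArg Vars.w β.g0_πp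
    rw [RingHom.mem_ker, h2] at h1
    exact Polynomial.X_ne_zero h1
  xm := β.mem_max (congrArg Vars.x β.g0_ε0)
  ym := β.mem_max (congrArg Vars.y β.g0_ε0)
  um := β.mem_max (congrArg Vars.u β.g0_ε0)
  vm := β.mem_max (congrArg Vars.v β.g0_ε0)
  wm := β.mem_max (congrArg Vars.w β.g0_ε0)
  zm := β.mem_max (by rw [β.ε0_c, β.hz])
  gen q hx hy hu hv hw hz := by
    rw [← Localization.AtPrime.map_eq_maximalIdeal, Ideal.map_le_iff_le_comap]
    exact β.gen0 _ hx hy hu hv hw hz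
  dimW := chain_le _ 3 (fun i => β.Q (i + 1)) (fun _ => β.Q_prime _) (fun _ => β.Q_w _) β.Q_lt

lemma Base.dim4 (h1 : β.lam β.z ≠ 0) (h2 : κ 4 (β.lam β.z) = 0) :
    (4 : WithBot ℕ∞) ≤ ringKrullDim β.RR := by
  refine le_trans (chain_le ⊥ 4 β.Q β.Q_prime (fun _ => bot_le) ?_) (ringKrullDim_quotient_le _)
  intro i hi
  match i, hi with
  | 0, _ => exact β.map_lt (RingHom.ker_isPrime _) (β.ψ_le _) (β.lt01 h1 h2)
  | i + 1, h => exact β.Q_lt i (by omega)

noncomputable def base0 : Base kk where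
  ε := RingHom.id _
  s := RingHom.id _
  z := 0
  hz := rfl
  dec l := ⟨0, by simp⟩
  lam := MvPolynomial.C
  hlam l := by simp

noncomputable def base1 : Base (Polynomial kk) where
  ε := Polynomial.evalRingHom 0
  s := Polynomial.C
  z := Polynomial.X
  hz := by simp
  dec l := ⟨l.divX, by
    rw [Polynomial.coe_evalRingHom, ← Polynomial.coeff_zero_eq_eval_zero, add_comm]
    exact (Polynomial.X_mul_divX_add l).symm⟩
  lam := Polynomial.eval₂RingHom MvPolynomial.C (MvPolynomial.X 4)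
  hlam l := by
    have : (MvPolynomial.constantCoeff : EE →+* kk).comp
        (Polynomial.eval₂RingHom MvPolynomial.C (MvPolynomial.X 4)) = Polynomial.evalRingHom 0 := by
      apply Polynomial.ringHom_ext
      · intro a; simp
      · simp
    exact RingHom.congr_fun this l

/-- The three-dimensional ring. -/
theorem exists_R : ∃ (R : Type) (_ : CommRing R) (_ : IsNoetherianRing R) (_ : IsLocalRing R)
    (σ : Setup R), σ.z = 0 :=
  ⟨base0.RR, inferInstance, inferInstance, inferInstance, base0.setup, by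
    change base0.alg (base0.c0 0) = 0
    rw [map_zero, map_zero]⟩

/-- The four-dimensional ring. -/
theorem exists_A : ∃ (R : Type) (_ : CommRing R) (_ : IsNoetherianRing R) (_ : IsLocalRing R)
    (_ : Setup R), (4 : WithBot ℕ∞) ≤ ringKrullDim R :=
  ⟨base1.RR, inferInstance, inferInstance, inferInstance, base1.setup,
    base1.dim4 (by simp [base1]) (by simp [base1, κ])⟩

end Pool.Agent.PS
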