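import Pool.Agent.H.MP_b9e986_al.G

set_option autoImplicit false

namespace Pool.Agent.PS

open IsLocalRing Matrix TensorProduct

variable {R : Type} [CommRing R] [IsLocalRing R]

lemma krull_zero (I : Ideal R) (h : ∀ q : Ideal R, q.IsPrime → I ≤ q → maximalIdeal R ≤ q) :
    Ring.KrullDimLE 0 (R ⧸ I) := by
  rw [Ideal.krullDimLE_zero_quotient_iff_forall_minimalPrimes_isMaximal]
  intro J hJ
  have hp : J.IsPrime := hJ.1.1
  have := (maximalIdeal.isMaximal R).eq_of_le hp.ne_top (h J hp hJ.1.2)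
  rw [← this]
  exact maximalIdeal.isMaximal R

lemma dim_zero (I : Ideal R) (h : ∀ q : Ideal R, q.IsPrime → I ≤ q → maximalIdeal R ≤ q) :
    ringKrullDim (R ⧸ I) ≤ 0 := by
  have := krull_zero I h
  simpa using Ring.krullDimLE_iff.1 this

lemma finiteLength_of [IsNoetherianRing R] (L : Type) [AddCommGroup L] [Module R L]
    [Module.Finite R L]
    (h : ∀ q : Ideal R, q.IsPrime → Module.annihilator R L ≤ q → maximalIdeal R ≤ q) :
    IsFiniteLength R L := by
  have := krull_zero _ h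
  have : IsArtinianRing (R ⧸ Module.annihilator R L) :=
    IsNoetherianRing.isArtinianRing_of_krullDimLE_zero
  let _ : Module (R ⧸ Module.annihilator R L) L := (Module.isTorsionBySet_annihilator R L).module
  have : IsScalarTower R (R ⧸ Module.annihilator R L) L :=
    (Module.isTorsionBySet_annihilator R L).isScalarTower
  have : Module.Finite (R ⧸ Module.annihilator R L) L :=
    Module.Finite.of_restrictScalars_finite R _ _
  rw [isFiniteLength_iff_isNoetherian_isArtinian]
  exact ⟨inferInstance, isArtinian_of_surjective_algebraMap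
    (R := R ⧸ Module.annihilator R L) Ideal.Quotient.mk_surjective⟩

omit [IsLocalRing R] in
lemma Reg3.of_weakly {a b c : R} {l : List R}
    (h : RingTheory.Sequence.IsWeaklyRegular R (a :: b :: c :: l)) : Reg3 a b c := by
  have h0 := h.regular_mod_prev 0 (by simp)
  have h1 := h.regular_mod_prev 1 (by simp)
  have h2 := h.regular_mod_prev 2 (by simp)
  rw [isSMulRegular_quotient_iff_mem_of_smul_mem] at h0 h1 h2
  apply Reg3.of_col
  · intro r hr
    simpa using h0 r (by simpa using hr)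
  · intro r hr
    simpa using h1 r (by simpa using hr)
  · intro r hr
    have e : Ideal.ofList [a, b] = Ideal.span {a, b} := by
      rw [Ideal.ofList]; congr 1; ext; simp
    have := h2 r (by simpa [e] using hr)
    simpa [e] using this

variable (σ : Setup R)

namespace Setup

/-- The module of finite projective dimension. -/
abbrev N : Type := (Fin 6 → R) ⧸ LinearMap.range (mat σ.g 6 17 D1).mulVecLin

abbrev M : Type := R ⧸ Ideal.span {σ.g.w}

def annW : Ideal R := LinearMap.ker (LinearMap.mulLeft R σ.g.w)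

lemma mem_annW (r : R) : r ∈ σ.annW ↔ σ.g.w * r = 0 := Iff.rfl

lemma lift0 (I : Ideal R) (a : R) (z : Fin 6 → R)
    (h : ∃ t, mat (σ.g.map (Ideal.Quotient.mk I)) 6 17 D1 *ᵥ t
      = Ideal.Quotient.mk I a • (Ideal.Quotient.mk I ∘ z)) :
    ∃ t, ∀ i, (a • z - mat σ.g 6 17 D1 *ᵥ t) i ∈ I := by
  obtain ⟨t, ht⟩ := h
  choose t' ht' using fun i => Ideal.Quotient.mk_surjective (t i)
  have e : t = Ideal.Quotient.mk I ∘ t' := funext fun i => (ht' i).symm
  rw [e, mat_map, map_mulVec'] at ht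
  refine ⟨t', fun i => ?_⟩
  have := congrFun ht i
  rw [← Ideal.Quotient.eq_zero_iff_mem, Pi.sub_apply, map_sub, sub_eq_zero]
  simpa using this.symm

lemma mk_d (t : Fin 17 → R) : (Submodule.Quotient.mk (mat σ.g 6 17 D1 *ᵥ t) : σ.N) = 0 :=
  (Submodule.Quotient.mk_eq_zero _).2 ⟨t, rfl⟩

lemma aN_w (a : R) (ha : a = (σ.g.x + σ.g.y) ^ 3 ∨ a = σ.g.u ^ 2 ∨ a = σ.g.v ^ 3) (n : σ.N) :
    ∃ n' : σ.N, a • n = σ.g.w • n' := by
  obtain ⟨z, rfl⟩ := Submodule.Quotient.mk_surjective _ n
  obtain ⟨t, ht⟩ := σ.lift0 (Ideal.span {σ.g.w}) a z (k0W (σ.rel.map _)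
    (Ideal.Quotient.eq_zero_iff_mem.2 (Ideal.mem_span_singleton_self _)) _ (by
      rcases ha with rfl | rfl | rfl <;> simp [Vars.map]) _)
  choose z' hz' using fun i => Ideal.mem_span_singleton'.1 (ht i)
  refine ⟨Submodule.Quotient.mk z', ?_⟩
  have e : a • z = σ.g.w • z' + mat σ.g 6 17 D1 *ᵥ t := by
    funext i
    have := hz' i
    simp only [Pi.sub_apply, Pi.smul_apply, smul_eq_mul, Pi.add_apply] at this ⊢
    linear_combination -this
  rw [← Submodule.Quotient.mk_smul, e, Submodule.Quotient.mk_add, mk_d, add_zero,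
    Submodule.Quotient.mk_smul]

lemma wa_ann (a : R) (ha : a = σ.g.y ∨ a = σ.g.u) : σ.g.w * a ∈ Module.annihilator R σ.N := by
  rw [Module.mem_annihilator]
  intro n
  obtain ⟨z, rfl⟩ := Submodule.Quotient.mk_surjective _ n
  obtain ⟨t, ht⟩ := σ.lift0 σ.annW a z (k0J (σ.rel.map _)
    (Ideal.Quotient.eq_zero_iff_mem.2 σ.wx) (Ideal.Quotient.eq_zero_iff_mem.2 σ.wv) _ (by
      rcases ha with rfl | rfl <;> simp [Vars.map]) _)
  have e : (σ.g.w * a) • z = mat σ.g 6 17 D1 *ᵥ (σ.g.w • t) := by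
    funext i
    have := (σ.mem_annW _).1 (ht i)
    rw [Matrix.mulVec_smul]
    simp only [Pi.sub_apply, Pi.smul_apply, smul_eq_mul] at this ⊢
    linear_combination this
  rw [← Submodule.Quotient.mk_smul, e, mk_d]

lemma sq_ann (a : R) (ha : a = (σ.g.x + σ.g.y) ^ 3 ∨ a = σ.g.u ^ 2 ∨ a = σ.g.v ^ 3) :
    a * a ∈ Module.annihilator R σ.N := by
  have h : σ.g.w * a ∈ Module.annihilator R σ.N := by
    rcases ha with rfl | rfl | rfl
    · have : σ.g.w * (σ.g.x + σ.g.y) ^ 3 = (σ.g.x + σ.g.y) ^ 2 * (σ.g.w * σ.g.y) := by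
        linear_combination (σ.g.x + σ.g.y) ^ 2 * σ.wx
      rw [this]; exact Ideal.mul_mem_left _ _ (σ.wa_ann _ (Or.inl rfl))
    · have : σ.g.w * σ.g.u ^ 2 = σ.g.u * (σ.g.w * σ.g.u) := by ring
      rw [this]; exact Ideal.mul_mem_left _ _ (σ.wa_ann _ (Or.inr rfl))
    · have : σ.g.w * σ.g.v ^ 3 = 0 := by linear_combination σ.g.v ^ 2 * σ.wv
      rw [this]; exact Submodule.zero_mem _
  rw [Module.mem_annihilator] at h ⊢
  intro n
  obtain ⟨n', hn'⟩ := σ.aN_w a ha n
  rw [mul_smul, hn', ← mul_smul, mul_comm, h]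

lemma ann_row {a : R} (ha : a ∈ Module.annihilator R σ.N) :
    ∃ A1 A2, σ.g.w * a = σ.g.w * (A1 * σ.g.y + A2 * σ.g.u) := by
  have h := Module.mem_annihilator.1 ha (Submodule.Quotient.mk (Pi.single 5 1))
  rw [← Submodule.Quotient.mk_smul, Submodule.Quotient.mk_eq_zero] at h
  obtain ⟨t, ht⟩ := h
  have h5 : (mat σ.g 6 17 D1 *ᵥ t) 5 = a := by
    have := congrFun ht 5
    simpa using this
  have := row5 (σ.rel.map (Ideal.Quotient.mk σ.annW)) (Ideal.Quotient.eq_zero_iff_mem.2 σ.wx)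
    (Ideal.Quotient.eq_zero_iff_mem.2 σ.wv) (Ideal.Quotient.mk σ.annW ∘ t)
  rw [P5_apply, mat_map, map_mulVec', mat_map, map_mulVec'] at this
  simp only [Function.comp_apply, h5, Vars.map] at this
  rw [← map_mul, ← map_mul, ← map_add, Ideal.Quotient.eq, mem_annW] at this
  exact ⟨(mat σ.g 2 17 G *ᵥ t) 0, (mat σ.g 2 17 G *ᵥ t) 1, by linear_combination this⟩

lemma ann_le_p : Module.annihilator R σ.N ≤ σ.p := by
  intro a ha
  obtain ⟨A1, A2, h⟩ := σ.ann_row ha
  have h1 : σ.g.w * a ∈ σ.p := by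
    rw [h]
    exact Ideal.mul_mem_left _ _ (Ideal.add_mem _ (Ideal.mul_mem_left _ _ σ.yp)
      (Ideal.mul_mem_left _ _ σ.up))
  exact (σ.pp.mem_or_mem h1).resolve_left σ.wp

lemma no_reg {a b c : R} (ha : a ∈ Module.annihilator R σ.N) (hb : b ∈ Module.annihilator R σ.N)
    (hc : c ∈ Module.annihilator R σ.N) (H : Reg3 a b c) : False := by
  obtain ⟨A1, A2, ha⟩ := σ.ann_row ha
  obtain ⟨B1, B2, hb⟩ := σ.ann_row hb
  obtain ⟨C1, C2, hc⟩ := σ.ann_row hc
  set w := σ.g.w
  set y := σ.g.y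
  set u := σ.g.u
  have e1 : w * (A1 * B2 - A2 * B1) * y = w * B2 * a - w * A2 * b := by
    linear_combination (-B2) * ha + A2 * hb
  have e2 : w * (A1 * B2 - A2 * B1) * u = w * A1 * b - w * B1 * a := by
    linear_combination B1 * ha - A1 * hb
  obtain ⟨α, β, h⟩ := H.r3 (w * (A1 * B2 - A2 * B1)) (w * (C1 * B2 - C2 * B1))
    (w * (C2 * A1 - C1 * A2)) (by
      linear_combination (A1 * B2 - A2 * B1) * hc + C1 * e1 + C2 * e2)
  obtain ⟨γ, hγ⟩ := H.r2 (β * y + w * A2) (w * B2 - α * y) (by linear_combination e1 - y * h)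
  obtain ⟨δ, hδ⟩ := H.r2 (w * A1 - β * u) (α * u + w * B1) (by linear_combination u * h - e2)
  have h3 : w - (δ * y + γ * u) = 0 := H.r1 _ (by linear_combination ha + y * hδ + u * hγ)
  apply σ.wp
  have : w = δ * y + γ * u := by linear_combination h3
  change w ∈ σ.p
  rw [this]
  exact Ideal.add_mem _ (Ideal.mul_mem_left _ _ σ.yp) (Ideal.mul_mem_left _ _ σ.up)

lemma len_le (rs : List R) (h : ∀ r ∈ rs, r ∈ Module.annihilator R σ.N)
    (hr : RingTheory.Sequence.IsWeaklyRegular R rs) : rs.length ≤ 2 := by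
  match rs, h, hr with
  | [], _, _ => simp
  | [_], _, _ => simp
  | [_, _], _, _ => simp
  | a :: b :: c :: l, h, hr =>
    exact (σ.no_reg (h a (by simp)) (h b (by simp)) (h c (by simp)) (Reg3.of_weakly hr)).elim

lemma prime_le {q : Ideal R} (hq : q.IsPrime) (hθ : σ.g.x + σ.g.y ∈ q) (hu : σ.g.u ∈ q)
    (hv : σ.g.v ∈ q) (hw : σ.g.w ∈ q) (hz : σ.z ∈ q) : maximalIdeal R ≤ q := by
  have hx : σ.g.x ∈ q := by
    apply hq.mem_of_pow_mem 2
    have : σ.g.x ^ 2 = σ.g.x * (σ.g.x + σ.g.y) - σ.g.u * σ.g.v := by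
      linear_combination -σ.rel.xy
    rw [this]
    exact Ideal.sub_mem _ (Ideal.mul_mem_left _ _ hθ) (Ideal.mul_mem_left _ _ hv)
  have hy : σ.g.y ∈ q := by simpa using Ideal.sub_mem _ hθ hx
  exact σ.gen q hx hy hu hv hw hz

lemma prime_of_ann {q : Ideal R} (hq : q.IsPrime) (h : Module.annihilator R σ.N ≤ q) :
    σ.g.x + σ.g.y ∈ q ∧ σ.g.u ∈ q ∧ σ.g.v ∈ q :=
  ⟨hq.mem_of_pow_mem 3 (by simpa using hq.mem_or_mem (h (σ.sq_ann _ (Or.inl rfl)))),
   hq.mem_of_pow_mem 2 (by simpa using hq.mem_or_mem (h (σ.sq_ann _ (Or.inr (Or.inl rfl))))),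
   hq.mem_of_pow_mem 3 (by simpa using hq.mem_or_mem (h (σ.sq_ann _ (Or.inr (Or.inr rfl)))))⟩

lemma dimN_ge : (1 : WithBot ℕ∞) ≤ ringKrullDim (R ⧸ Module.annihilator R σ.N) := by
  refine chain_le _ 1 (fun i => if i = 0 then σ.p else maximalIdeal R) ?_ ?_ ?_
  · intro i
    by_cases h : i = 0
    · simpa [h] using σ.pp
    · simpa [h] using (maximalIdeal.isMaximal R).isPrime
  · intro i
    by_cases h : i = 0
    · simpa [h] using σ.ann_le_p
    · simpa [h] using σ.ann_le_p.trans (le_maximalIdeal σ.pp.ne_top)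
  · intro i hi
    obtain rfl : i = 0 := by omega
    simp only [if_true, zero_add, one_ne_zero, if_false]
    exact lt_of_le_of_ne (le_maximalIdeal σ.pp.ne_top) fun e => σ.wp (e ▸ σ.wm)

lemma dimN_le [IsNoetherianRing R] : ringKrullDim (R ⧸ Module.annihilator R σ.N) ≤ 1 := by
  rw [← Module.supportDim_eq_ringKrullDim_quotient_annihilator]
  refine (Module.supportDim_le_supportDim_quotSMulTop_succ
    (Ideal.add_mem _ σ.wm σ.zm)).trans ?_
  rw [Module.supportDim_eq_ringKrullDim_quotient_annihilator]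
  have := dim_zero (Module.annihilator R (QuotSMulTop (σ.g.w + σ.z) σ.N)) (fun q hq h => by
    have h1 : Module.annihilator R σ.N ≤ q :=
      (LinearMap.annihilator_le_of_surjective _ (Submodule.mkQ_surjective _)).trans h
    have h2 : σ.g.w + σ.z ∈ q := by
      apply h
      rw [Module.mem_annihilator]
      intro n
      obtain ⟨n, rfl⟩ := Submodule.Quotient.mk_surjective _ n
      rw [← Submodule.Quotient.mk_smul, Submodule.Quotient.mk_eq_zero]
      exact Submodule.smul_mem_pointwise_smul _ _ _ Submodule.mem_top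
    have hw : σ.g.w ∈ q := by
      apply hq.mem_of_pow_mem 2
      have : σ.g.w ^ 2 = σ.g.w * (σ.g.w + σ.z) := by linear_combination -σ.wz
      rw [this]; exact Ideal.mul_mem_left _ _ h2
    obtain ⟨a, b, c⟩ := σ.prime_of_ann hq h1
    exact σ.prime_le hq a b c hw (by simpa using Ideal.sub_mem _ h2 hw))
  simpa using add_le_add_left this 1

lemma dimR_le [IsNoetherianRing R] (hz : σ.z = 0) : ringKrullDim R ≤ 3 := by
  classical
  have h1 := ringKrullDim_le_ringKrullDim_quotient_add_card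
    (s := {σ.g.x + σ.g.y, σ.g.u, σ.g.v + σ.g.w}) (by
      rw [IsLocalRing.ringJacobson_eq_maximalIdeal]
      intro r hr
      simp only [Finset.coe_insert, Finset.coe_singleton, Set.mem_insert_iff,
        Set.mem_singleton_iff] at hr
      rcases hr with rfl | rfl | rfl
      · exact Ideal.add_mem _ σ.xm σ.ym
      · exact σ.um
      · exact Ideal.add_mem _ σ.vm σ.wm)
  have h2 := dim_zero (Ideal.span (SetLike.coe
    ({σ.g.x + σ.g.y, σ.g.u, σ.g.v + σ.g.w} : Finset R))) (fun q hq h => by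
      rw [Ideal.span_le] at h
      have h2 : σ.g.v + σ.g.w ∈ q := h (by simp)
      have hw : σ.g.w ∈ q := by
        apply hq.mem_of_pow_mem 2
        have : σ.g.w ^ 2 = σ.g.w * (σ.g.v + σ.g.w) := by linear_combination -σ.wv
        rw [this]; exact Ideal.mul_mem_left _ _ h2
      exact σ.prime_le hq (h (by simp)) (h (by simp)) (by simpa using Ideal.sub_mem _ h2 hw) hw
        (by rw [hz]; exact Submodule.zero_mem _))
  have h3 : ((({σ.g.x + σ.g.y, σ.g.u, σ.g.v + σ.g.w} : Finset R).card : ℕ) : WithBot ℕ∞) ≤ 3 := by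
    exact_mod_cast Finset.card_le_three
  simpa using h1.trans (add_le_add h2 h3)

lemma annM : Module.annihilator R σ.M = Ideal.span {σ.g.w} := Ideal.annihilator_quotient

lemma dimM : (3 : WithBot ℕ∞) ≤ ringKrullDim (R ⧸ Module.annihilator R σ.M) := by
  rw [annM]; exact σ.dimW

lemma tensor_ann (hz : σ.z = 0) (q : Ideal R) (hq : q.IsPrime)
    (h : Module.annihilator R (σ.M ⊗[R] σ.N) ≤ q) : maximalIdeal R ≤ q := by
  have hw : σ.g.w ∈ Module.annihilator R (σ.M ⊗[R] σ.N) := by
    rw [Module.mem_annihilator]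
    intro t
    induction t using TensorProduct.induction_on with
    | zero => simp
    | add a b ha hb => rw [smul_add, ha, hb, add_zero]
    | tmul m n =>
      have : σ.g.w • m = 0 := Module.mem_annihilator.1
        (by rw [σ.annM]; exact Ideal.mem_span_singleton_self _) m
      rw [TensorProduct.smul_tmul', this, TensorProduct.zero_tmul]
  have h1 : Module.annihilator R σ.N ≤ q := by
    refine le_trans (fun a ha => ?_) h
    rw [Module.mem_annihilator] at ha ⊢
    intro t
    induction t using TensorProduct.induction_on with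
    | zero => simp
    | add a b ha hb => rw [smul_add, ha, hb, add_zero]
    | tmul m n => rw [← TensorProduct.tmul_smul, ha, TensorProduct.tmul_zero]
  obtain ⟨a, b, c⟩ := σ.prime_of_ann hq h1
  exact σ.prime_le hq a b c (h hw) (by rw [hz]; exact Submodule.zero_mem _)

instance : Nontrivial σ.M :=
  Ideal.Quotient.nontrivial_iff.2 fun e => (maximalIdeal.isMaximal R).ne_top (by
    rw [eq_top_iff, ← e, Ideal.span_le, Set.singleton_subset_iff]; exact σ.wm)

instance : Nontrivial σ.N := by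
  by_contra h
  rw [not_nontrivial_iff_subsingleton] at h
  apply σ.pp.ne_top
  rw [eq_top_iff]
  refine le_trans (fun a _ => ?_) σ.ann_le_p
  rw [Module.mem_annihilator]
  intro n
  exact Subsingleton.elim _ _

end Setup

end Pool.Agent.PS
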