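import Pool.Agent.H.MP_b9e986_al.H

set_option autoImplicit false

namespace Pool.Agent.PS

open IsLocalRing Matrix TensorProduct CategoryTheory CategoryTheory.Limits

variable {R : Type} [CommRing R] [IsLocalRing R] (σ : Setup R)

namespace Setup

/-- The differentials as linear maps. -/
def dl (n : ℕ) : (Fin (bb (n + 1)) → R) →ₗ[R] (Fin (bb n) → R) := (dd σ.g n).mulVecLin

lemma dl_dl (n : ℕ) (z : Fin (bb (n + 1 + 1)) → R) : σ.dl n (σ.dl (n + 1) z) = 0 := by
  simp only [dl, Matrix.mulVecLin_apply, Matrix.mulVec_mulVec, dd_mul σ.rel σ.wx σ.wv n,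
    Matrix.zero_mulVec]

lemma dl_exact (n : ℕ) (z : Fin (bb (n + 1)) → R) (hz : σ.dl n z = 0) :
    ∃ c, σ.dl (n + 1) c = z := by
  obtain ⟨c, hc⟩ := σ.ex0 n z (fun i => by
    have : dd σ.g n *ᵥ z = 0 := hz
    rw [this]; exact Submodule.zero_mem _)
  refine ⟨c, funext fun i => ?_⟩
  have := (Submodule.mem_bot R).1 (hc i)
  exact (sub_eq_zero.1 this).symm

lemma range_eq_ker (n : ℕ) : LinearMap.range (σ.dl (n + 1)) = LinearMap.ker (σ.dl n) := by
  apply le_antisymm
  · rintro _ ⟨c, rfl⟩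
    exact σ.dl_dl n c
  · intro z hz
    exact σ.dl_exact n z hz

/-- The augmentation. -/
def aug : (Fin (bb 0) → R) →ₗ[R] σ.N := Submodule.mkQ _

lemma aug_surj : Function.Surjective σ.aug := Submodule.mkQ_surjective _

lemma range_eq_ker_aug : LinearMap.range (σ.dl 0) = LinearMap.ker σ.aug :=
  (Submodule.ker_mkQ _).symm

noncomputable def cx : ChainComplex (ModuleCat.{0} R) ℕ :=
  ChainComplex.of (fun n => ModuleCat.of R (Fin (bb n) → R)) (fun n => ModuleCat.ofHom (σ.dl n))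
    (fun n => ModuleCat.hom_ext (LinearMap.ext fun z => σ.dl_dl n z))

lemma cx_d (n : ℕ) : σ.cx.d (n + 1) n = ModuleCat.ofHom (σ.dl n) :=
  ChainComplex.of_d (fun n => ModuleCat.of R (Fin (bb n) → R))
    (fun n => ModuleCat.ofHom (σ.dl n)) n

lemma cx_exact (n : ℕ) : σ.cx.ExactAt (n + 1) := by
  rw [HomologicalComplex.exactAt_iff' _ (n + 1 + 1) (n + 1) n (by simp) (by simp),
    ShortComplex.moduleCat_exact_iff]
  intro z hz
  change σ.cx.d (n + 1) n z = 0 at hz
  change ∃ c, σ.cx.d (n + 1 + 1) (n + 1) c = z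
  rw [cx_d] at hz ⊢
  exact σ.dl_exact n z hz

noncomputable def res : ProjectiveResolution (ModuleCat.of R σ.N) where
  complex := σ.cx
  projective n := inferInstanceAs (Projective (ModuleCat.of R (Fin (bb n) → R)))
  π := (ChainComplex.toSingle₀Equiv _ _).symm ⟨ModuleCat.ofHom σ.aug, by
    rw [cx_d]
    ext1
    ext1 z
    exact σ.range_eq_ker_aug.le ⟨z, rfl⟩⟩
  quasiIso := ⟨fun n => by
    cases n
    · rw [ChainComplex.quasiIsoAt₀_iff, ShortComplex.quasiIso_iff_of_zeros']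
      · refine (ShortComplex.exact_and_epi_g_iff_of_iso
          (S₂ := ShortComplex.mk (ModuleCat.ofHom (σ.dl 0)) (ModuleCat.ofHom σ.aug)
            (ModuleCat.hom_ext (LinearMap.ext fun z => σ.range_eq_ker_aug.le ⟨z, rfl⟩))) ?_).2 ⟨?_, ?_⟩
        · exact ShortComplex.isoMk (Iso.refl _) (Iso.refl _) (Iso.refl _)
            ((Category.id_comp _).trans ((σ.cx_d 0).symm.trans (Category.comp_id _).symm))
            ((Category.id_comp _).trans ((ChainComplex.toSingle₀Equiv_symm_apply_f_zero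
              (C := σ.cx) _ _).symm.trans (Category.comp_id _).symm))
        · rw [ShortComplex.moduleCat_exact_iff]
          intro z hz
          exact σ.range_eq_ker_aug.ge hz
        · exact (ModuleCat.epi_iff_surjective _).2 σ.aug_surj
      all_goals rfl
    · rw [quasiIsoAt_iff_exactAt']
      · apply σ.cx_exact
      · apply ChainComplex.exactAt_succ_single_obj⟩

lemma res_zero (i : ℕ) (hi : 4 ≤ i) : IsZero (σ.res.complex.X i) := by
  obtain ⟨n, rfl⟩ : ∃ n, i = n + 4 := ⟨i - 4, by omega⟩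
  exact ModuleCat.isZero_of_subsingleton (ModuleCat.of R (Fin (bb (n + 4)) → R))

lemma one_tmul_surj {n : ℕ} (t : σ.M ⊗[R] (Fin n → R)) : ∃ z, (1 : σ.M) ⊗ₜ[R] z = t := by
  induction t using TensorProduct.induction_on with
  | zero => exact ⟨0, by simp⟩
  | add a b ha hb =>
    obtain ⟨a, rfl⟩ := ha
    obtain ⟨b, rfl⟩ := hb
    exact ⟨a + b, TensorProduct.tmul_add _ _ _⟩
  | tmul m z =>
    obtain ⟨r, rfl⟩ := Ideal.Quotient.mk_surjective m
    refine ⟨r • z, ?_⟩
    rw [TensorProduct.tmul_smul, TensorProduct.smul_tmul']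
    congr 1
    rw [← Algebra.algebraMap_eq_smul_one]
    rfl

lemma one_tmul_eq_zero {n : ℕ} (z : Fin n → R) :
    (1 : σ.M) ⊗ₜ[R] z = 0 ↔ ∀ i, z i ∈ Ideal.span {σ.g.w} := by
  constructor
  · intro h i
    have := congrArg (fun t => TensorProduct.rid R σ.M
      (LinearMap.lTensor σ.M (LinearMap.proj i : (Fin n → R) →ₗ[R] R) t)) h
    simp only [LinearMap.lTensor_tmul, LinearMap.proj_apply, TensorProduct.rid_tmul,
      map_zero] at this
    rw [← Algebra.algebraMap_eq_smul_one] at this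
    exact Ideal.Quotient.eq_zero_iff_mem.1 this
  · intro h
    choose z' hz' using fun i => Ideal.mem_span_singleton'.1 (h i)
    have e : z = σ.g.w • z' := funext fun i => by rw [← hz' i]; simp [mul_comm]
    have h1 : σ.g.w • (1 : σ.M) = 0 := Module.mem_annihilator.1
        (by rw [σ.annM]; exact Ideal.mem_span_singleton_self _) _
    rw [e, TensorProduct.tmul_smul, TensorProduct.smul_tmul', h1, TensorProduct.zero_tmul]

lemma tensor_exact (n : ℕ) (t : σ.M ⊗[R] (Fin (bb (n + 1)) → R))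
    (ht : LinearMap.lTensor σ.M (σ.dl n) t = 0) :
    ∃ c, LinearMap.lTensor σ.M (σ.dl (n + 1)) c = t := by
  obtain ⟨z, rfl⟩ := σ.one_tmul_surj t
  rw [LinearMap.lTensor_tmul, one_tmul_eq_zero] at ht
  obtain ⟨c, hc⟩ := σ.exw n z ht
  refine ⟨1 ⊗ₜ c, ?_⟩
  have := (σ.one_tmul_eq_zero _).2 hc
  rw [TensorProduct.tmul_sub, sub_eq_zero] at this
  rw [LinearMap.lTensor_tmul, this]
  rfl

lemma tor_zero (i : ℕ) (hi : 0 < i) :
    IsZero (((Tor (ModuleCat.{0} R) i).obj (ModuleCat.of R σ.M)).obj (ModuleCat.of R σ.N)) := by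
  obtain ⟨n, rfl⟩ : ∃ n, i = n + 1 := ⟨i - 1, by omega⟩
  refine IsZero.of_iso ?_ (σ.res.isoLeftDerivedObj
    ((MonoidalCategory.tensoringLeft (ModuleCat.{0} R)).obj (ModuleCat.of R σ.M)) (n + 1))
  refine (HomologicalComplex.exactAt_iff_isZero_homology _ _).1 ?_
  rw [HomologicalComplex.exactAt_iff' _ (n + 1 + 1) (n + 1) n (by simp) (by simp),
    ShortComplex.moduleCat_exact_iff]
  intro t ht
  change ((MonoidalCategory.tensoringLeft (ModuleCat.{0} R)).obj (ModuleCat.of R σ.M)).map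
    (σ.cx.d (n + 1) n) t = 0 at ht
  change ∃ c, ((MonoidalCategory.tensoringLeft (ModuleCat.{0} R)).obj (ModuleCat.of R σ.M)).map
    (σ.cx.d (n + 1 + 1) (n + 1)) c = t
  rw [cx_d] at ht ⊢
  exact σ.tensor_exact n t ht

end Setup

end Pool.Agent.PS
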